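import Mathlib

set_option autoImplicit false

/-!
# Periods of roots of unity in positive characteristic
-/

namespace Pool.Agent.N889.LD

open Finset

section pw
variable {R : Type*} [CommRing R] (q : ℕ) [hq : Fact q.Prime] (z : R)

/-- powers with exponents in `ZMod q` -/
def pw (c : ZMod q) : R := z ^ c.val

variable {q z}

lemma pw_natCast (hz : z ^ q = 1) (n : ℕ) : pw q z (n : ZMod q) = z ^ n := by
  unfold pw
  rw [ZMod.val_natCast]
  conv_rhs => rw [← Nat.mod_add_div n q, pow_add, pow_mul, hz, one_pow, mul_one]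

lemma pw_add (hz : z ^ q = 1) (a b : ZMod q) : pw q z (a + b) = pw q z a * pw q z b := by
  have h := pw_natCast hz (a.val + b.val)
  rw [Nat.cast_add, ZMod.natCast_zmod_val, ZMod.natCast_zmod_val] at h
  rw [h, pow_add]
  rfl

lemma pw_pow (hz : z ^ q = 1) (a : ZMod q) (n : ℕ) : pw q z a ^ n = pw q z (n * a) := by
  have h := pw_natCast hz (n * a.val)
  rw [Nat.cast_mul, ZMod.natCast_zmod_val] at h
  rw [h, mul_comm, pow_mul]
  rfl

lemma pw_zero : pw q z 0 = 1 := by
  unfold pw
  rw [ZMod.val_zero, pow_zero]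

lemma sum_pw (hz : z ^ q = 1) (hsum : ∑ i ∈ range q, z ^ i = 0) (c : ZMod q) :
    ∑ k : ZMod q, pw q z (k * c) = if c = 0 then (q : R) else 0 := by
  split_ifs with h
  · subst h
    simp [pw_zero, ZMod.card]
  · have h1 : ∑ k : ZMod q, pw q z (k * c) = ∑ k : ZMod q, pw q z k :=
      Fintype.sum_bijective (fun k => k * c) (mulRight_bijective₀ c h) _ _ fun _ => rfl
    rw [h1, ← hsum]
    symm
    apply Finset.sum_bij (fun (i : ℕ) _ => (i : ZMod q))
    · intro i _; exact Finset.mem_univ _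
    · intro i hi j hj hij
      have := congrArg ZMod.val hij
      rwa [ZMod.val_natCast_of_lt (mem_range.mp hi), ZMod.val_natCast_of_lt (mem_range.mp hj)]
        at this
    · intro k _
      exact ⟨k.val, mem_range.mpr (ZMod.val_lt k), ZMod.natCast_zmod_val k⟩
    · intro i _
      rw [pw_natCast hz]

lemma sum_units_pw (hz : z ^ q = 1) (hsum : ∑ i ∈ range q, z ^ i = 0) (c : ZMod q) :
    ∑ k : (ZMod q)ˣ, pw q z ((k : ZMod q) * c) = if c = 0 then (q : R) - 1 else -1 := by
  classical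
  have h1 : ∑ k : ZMod q, pw q z (k * c) =
      1 + ∑ k : (ZMod q)ˣ, pw q z ((k : ZMod q) * c) := by
    rw [← Finset.add_sum_erase Finset.univ _ (Finset.mem_univ (0 : ZMod q))]
    congr 1
    · rw [zero_mul, pw_zero]
    · symm
      apply Finset.sum_bij (fun (k : (ZMod q)ˣ) _ => (k : ZMod q))
      · intro k _; exact Finset.mem_erase.mpr ⟨k.ne_zero, Finset.mem_univ _⟩
      · intro a _ b _ hab; exact Units.ext hab
      · intro k hk
        exact ⟨Units.mk0 k (Finset.mem_erase.mp hk).1, Finset.mem_univ _, rfl⟩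
      · intro k _; rfl
  rw [sum_pw hz hsum] at h1
  split_ifs at h1 ⊢ with h
  · rw [h1]; ring
  · linear_combination -h1

end pw

open Classical in
/-- the periods -/
noncomputable def eta {R : Type*} [CommRing R] (q : ℕ) [Fact q.Prime] (z : R)
    (H : Subgroup (ZMod q)ˣ) (k : (ZMod q)ˣ) : R :=
  ∑ a ∈ Finset.univ.filter (fun a : (ZMod q)ˣ => a ∈ H), pw q z ((k * a : (ZMod q)ˣ) : ZMod q)

/-- If a power of the Frobenius fixes the periods, then it lies in the subgroup. -/
theorem mem_of_fixed {K : Type*} [Field K] (p : ℕ) [hp : Fact p.Prime] [CharP K p] (q : ℕ)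
    [hq : Fact q.Prime] (z : K) (hz : z ^ q = 1) (hsum : ∑ i ∈ range q, z ^ i = 0)
    (hq0 : (q : K) ≠ 0) (H : Subgroup (ZMod q)ˣ) (r : ℕ) (P : (ZMod q)ˣ)
    (hP : (P : ZMod q) = (p : ZMod q) ^ r) (hfix : ∀ k, eta q z H k ^ (p ^ r) = eta q z H k) :
    P ∈ H := by
  classical
  by_contra hPH
  set S := Finset.univ.filter (fun a : (ZMod q)ˣ => a ∈ H) with hS
  have h1 : ∀ k, eta q z H k = eta q z H (P * k) := by
    intro k
    rw [← hfix k]
    unfold eta
    rw [sum_pow_char_pow]
    refine Finset.sum_congr rfl fun a _ => ?_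
    rw [pw_pow hz]
    congr 1
    push_cast
    rw [hP]
    ring
  have h2 : ∑ k : (ZMod q)ˣ, (eta q z H k - eta q z H (P * k)) * pw q z (-(k : ZMod q)) = 0 := by
    apply Finset.sum_eq_zero
    intro k _
    rw [← h1 k, sub_self, zero_mul]
  have h3 : ∀ Q : (ZMod q)ˣ, ∑ k : (ZMod q)ˣ, eta q z H (Q * k) * pw q z (-(k : ZMod q)) =
      ∑ a ∈ S, (if ((Q * a : (ZMod q)ˣ) : ZMod q) - 1 = 0 then (q : K) - 1 else -1) := by
    intro Q
    unfold eta
    simp_rw [Finset.sum_mul]
    rw [Finset.sum_comm]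
    refine Finset.sum_congr rfl fun a _ => ?_
    rw [← sum_units_pw hz hsum]
    refine Finset.sum_congr rfl fun k _ => ?_
    rw [← pw_add hz]
    congr 1
    push_cast
    ring
  have h4 := h3 1
  have h5 := h3 P
  simp only [one_mul] at h4
  simp only [sub_mul, Finset.sum_sub_distrib] at h2
  rw [h4, h5] at h2
  have h6 : ∑ a ∈ S, (if ((P * a : (ZMod q)ˣ) : ZMod q) - 1 = 0 then (q : K) - 1 else -1) =
      ∑ a ∈ S, (-1 : K) := by
    refine Finset.sum_congr rfl fun a ha => ?_
    rw [if_neg]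
    intro h
    apply hPH
    have h7 : P * a = 1 := by
      apply Units.ext
      rw [Units.val_one]
      exact sub_eq_zero.mp h
    have h8 : a ∈ H := (Finset.mem_filter.mp ha).2
    rw [eq_inv_of_mul_eq_one_left h7]
    exact H.inv_mem h8
  have h7 : ∑ a ∈ S, (if ((a : (ZMod q)ˣ) : ZMod q) - 1 = 0 then (q : K) - 1 else -1) =
      (q : K) + ∑ a ∈ S, (-1 : K) := by
    have hmem : (1 : (ZMod q)ˣ) ∈ S := by
      rw [hS, Finset.mem_filter]
      exact ⟨Finset.mem_univ _, H.one_mem⟩
    rw [← Finset.add_sum_erase S _ hmem, ← Finset.add_sum_erase S (fun _ => (-1 : K)) hmem]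
    have h8 : ∑ a ∈ S.erase 1, (if ((a : (ZMod q)ˣ) : ZMod q) - 1 = 0 then (q : K) - 1 else -1) =
        ∑ a ∈ S.erase 1, (-1 : K) := by
      refine Finset.sum_congr rfl fun a ha => ?_
      rw [if_neg]
      intro h
      apply (Finset.mem_erase.mp ha).1
      apply Units.ext
      rw [Units.val_one]
      exact sub_eq_zero.mp h
    rw [h8]
    simp only [Units.val_one, sub_self, if_true]
    ring
  rw [h6, h7] at h2
  apply hq0
  linear_combination h2

end Pool.Agent.N889.LD
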