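import Mathlib
import Pool.Agent.H58P.Rad

set_option autoImplicit false

/-!
# The values of a number field at the places over an unramified prime
-/

namespace Pool.Agent.N889.LD

open NumberField UniqueFactorizationMonoid
open Pool.Agent.H58P (Qb squarefree_span)

lemma val_nat_le (V : ValuationSubring Qb) (n : ℕ) : V.valuation (n : Qb) ≤ 1 := by
  rw [ValuationSubring.valuation_le_one_iff]
  exact natCast_mem V n

lemma mul_lt_one' {Γ : Type*} [LinearOrderedCommGroupWithZero Γ] {a b : Γ} (ha : a ≤ 1)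
    (hb : b < 1) : a * b < 1 :=
  calc a * b ≤ 1 * b := mul_le_mul' ha le_rfl
    _ = b := one_mul b
    _ < 1 := hb

lemma val_int_le (V : ValuationSubring Qb) (n : ℤ) : V.valuation (n : Qb) ≤ 1 := by
  rw [ValuationSubring.valuation_le_one_iff]
  exact intCast_mem V n

/-- integral elements have value at most one -/
lemma val_integral (V : ValuationSubring Qb) (x : Qb) (hx : IsIntegral ℤ x) :
    V.valuation x ≤ 1 := by
  rw [ValuationSubring.valuation_le_one_iff]
  have h1 : IsIntegral V x := hx.tower_top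
  obtain ⟨y, hy⟩ := IsIntegrallyClosed.isIntegral_iff.mp h1
  rw [← hy]
  exact y.2

/-- the values of integers which are prime to `q` -/
lemma val_int_eq_one (V : ValuationSubring Qb) (q : ℕ) (hq : q.Prime)
    (hV : V.valuation (q : Qb) < 1) (n : ℤ) (hn : ¬ (q : ℤ) ∣ n) : V.valuation (n : Qb) = 1 := by
  have hco : IsCoprime (q : ℤ) n := by
    rw [Prime.coprime_iff_not_dvd (Nat.prime_iff_prime_int.mp hq)]
    exact hn
  obtain ⟨a, b, hab⟩ := hco
  have h1 : ((a : Qb)) * (q : Qb) + (b : Qb) * (n : Qb) = 1 := by exact_mod_cast congrArg (fun z : ℤ => (z : Qb)) hab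
  by_contra hne
  have hlt : V.valuation (n : Qb) < 1 := lt_of_le_of_ne (val_int_le V n) hne
  have h2 : V.valuation ((a : Qb) * (q : Qb)) < 1 := by
    rw [map_mul]
    exact mul_lt_one' (val_int_le V a) hV
  have h3 : V.valuation ((b : Qb) * (n : Qb)) < 1 := by
    rw [map_mul]
    exact mul_lt_one' (val_int_le V b) hlt
  have h4 := V.valuation.map_add_lt h2 h3
  rw [h1, map_one] at h4
  exact lt_irrefl _ h4

/-- the values of the elements of an unramified number field -/
lemma val_unram (E : IntermediateField ℚ Qb) [NumberField E] (q : ℕ) (hq : q.Prime)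
    (h : ¬ (q : ℤ) ∣ discr E) (V : ValuationSubring Qb) (hV : V.valuation (q : Qb) < 1)
    (c : Qb) (hc : c ∈ E) (hc0 : c ≠ 0) : ∃ n : ℤ, V.valuation c = V.valuation (q : Qb) ^ n := by
  classical
  have hq0 : (q : Qb) ≠ 0 := by exact_mod_cast hq.ne_zero
  have hvq : V.valuation (q : Qb) ≠ 0 := (Valuation.ne_zero_iff _).mpr hq0
  have hval1 : ∀ x : 𝓞 E, V.valuation ((x : E) : Qb) ≤ 1 := fun x =>
    val_integral V _ ((x.isIntegral_coe).map (algebraMap E Qb).toIntAlgHom)
  -- the prime ideal
  let P : Ideal (𝓞 E) :=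
    { carrier := {x | V.valuation ((x : E) : Qb) < 1}
      add_mem' := fun {a b} ha hb => by
        show V.valuation (((a + b : 𝓞 E) : E) : Qb) < 1
        push_cast
        exact V.valuation.map_add_lt ha hb
      zero_mem' := by
        show V.valuation (((0 : 𝓞 E) : E) : Qb) < 1
        simp
      smul_mem' := fun c x hx => by
        show V.valuation (((c * x : 𝓞 E) : E) : Qb) < 1
        push_cast
        rw [map_mul]
        exact mul_lt_one' (hval1 c) hx }
  have hPmem : ∀ x : 𝓞 E, x ∈ P ↔ V.valuation ((x : E) : Qb) < 1 := fun x => Iff.rfl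
  have hPprime : P.IsPrime := by
    refine ⟨?_, ?_⟩
    · rw [Ne, Ideal.eq_top_iff_one, hPmem]
      simp
    · intro x y hxy
      by_contra hcon
      push Not at hcon
      rw [hPmem] at hxy
      rw [hPmem, hPmem, not_lt, not_lt] at hcon
      push_cast at hxy
      rw [map_mul] at hxy
      have h1 : V.valuation ((x : E) : Qb) = 1 := le_antisymm (hval1 x) hcon.1
      have h2 : V.valuation ((y : E) : Qb) = 1 := le_antisymm (hval1 y) hcon.2
      rw [h1, h2, one_mul] at hxy
      exact lt_irrefl _ hxy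
  have hqP : (q : 𝓞 E) ∈ P := by
    rw [hPmem]
    push_cast
    exact hV
  have hsq := squarefree_span q hq h (K := E)
  have hbot : Ideal.span {(q : 𝓞 E)} ≠ 0 := by
    rw [Ne, Ideal.zero_eq_bot, Ideal.span_singleton_eq_bot]
    exact_mod_cast hq.ne_zero
  obtain ⟨J, hJ⟩ : P ∣ Ideal.span {(q : 𝓞 E)} := by
    rw [Ideal.dvd_span_singleton]
    exact hqP
  have hJP : ¬ J ≤ P := by
    intro hle
    obtain ⟨J', rfl⟩ := Ideal.dvd_iff_le.mpr hle
    have h1 : P * P ∣ Ideal.span {(q : 𝓞 E)} := ⟨J', by rw [hJ, mul_assoc]⟩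
    exact hPprime.ne_top (by simpa using hsq P h1)
  obtain ⟨s, hsJ, hsP⟩ := Set.not_subset.mp hJP
  have hs1 : V.valuation ((s : E) : Qb) = 1 := by
    refine le_antisymm (hval1 s) ?_
    rw [← not_lt]
    exact hsP
  -- division by `q`
  have hdiv : ∀ x ∈ P, ∃ y : 𝓞 E, V.valuation ((x : E) : Qb) =
      V.valuation (q : Qb) * V.valuation ((y : E) : Qb) := by
    intro x hx
    have h1 : x * s ∈ Ideal.span {(q : 𝓞 E)} := by
      rw [hJ]
      exact Ideal.mul_mem_mul hx hsJ
    obtain ⟨y, hy⟩ := Ideal.mem_span_singleton.mp h1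
    refine ⟨y, ?_⟩
    have h2 := congrArg (fun z : 𝓞 E => V.valuation ((z : E) : Qb)) hy
    push_cast at h2
    rw [map_mul, map_mul, hs1, mul_one] at h2
    exact h2
  -- powers
  have hpow : ∀ (k : ℕ) (x : 𝓞 E), (∃ n : ℕ, n < k ∧ V.valuation ((x : E) : Qb) =
      V.valuation (q : Qb) ^ n) ∨ V.valuation ((x : E) : Qb) ≤ V.valuation (q : Qb) ^ k := by
    intro k
    induction k with
    | zero =>
      intro x
      right
      rw [pow_zero]
      exact hval1 x
    | succ k ih =>
      intro x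
      by_cases hx : x ∈ P
      · obtain ⟨y, hy⟩ := hdiv x hx
        rcases ih y with ⟨n, hn, h1⟩ | h1
        · left
          exact ⟨n + 1, by omega, by rw [hy, h1, pow_succ']⟩
        · right
          rw [hy, pow_succ']
          exact mul_le_mul' le_rfl h1
      · left
        refine ⟨0, by omega, ?_⟩
        rw [pow_zero]
        refine le_antisymm (hval1 x) ?_
        rw [← not_lt]
        exact hx
  -- integral elements
  have hint : ∀ x : 𝓞 E, x ≠ 0 → ∃ n : ℕ, V.valuation ((x : E) : Qb) =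
      V.valuation (q : Qb) ^ n := by
    intro x hx
    obtain ⟨N, hN, hN0⟩ : ∃ N : ℤ, x ∣ (N : 𝓞 E) ∧ N ≠ 0 := by
      refine ⟨(Ideal.absNorm (Ideal.span {x}) : ℕ), ?_, ?_⟩
      · rw [← Ideal.mem_span_singleton, Int.cast_natCast]
        exact Ideal.absNorm_mem _
      · have h1 : Ideal.absNorm (Ideal.span {x}) ≠ 0 := by
          rw [Ne, Ideal.absNorm_eq_zero_iff, Ideal.span_singleton_eq_bot]
          exact hx
        exact_mod_cast h1
    obtain ⟨y, hy⟩ := hN
    obtain ⟨k, N', hN', hNk⟩ : ∃ (k : ℕ) (N' : ℤ), ¬ (q : ℤ) ∣ N' ∧ N = (q : ℤ) ^ k * N' := by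
      have hfin : FiniteMultiplicity (q : ℤ) N := by
        rw [Int.finiteMultiplicity_iff]
        refine ⟨?_, hN0⟩
        simpa using hq.ne_one
      obtain ⟨N', h1, h2⟩ := hfin.exists_eq_pow_mul_and_not_dvd
      exact ⟨_, N', h2, h1⟩
    have h1 : V.valuation (N : Qb) = V.valuation (q : Qb) ^ k := by
      rw [hNk]
      push_cast
      rw [map_mul, map_pow, val_int_eq_one V q hq hV N' hN', mul_one]
    have h2 : V.valuation (N : Qb) = V.valuation ((x : E) : Qb) * V.valuation ((y : E) : Qb) := by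
      have h2 := congrArg (fun z : 𝓞 E => V.valuation ((z : E) : Qb)) hy
      push_cast at h2
      rw [map_mul] at h2
      exact h2
    rcases hpow (k + 1) x with ⟨n, _, h3⟩ | h3
    · exact ⟨n, h3⟩
    · exfalso
      have h4 : V.valuation (q : Qb) ^ k ≤ V.valuation (q : Qb) ^ (k + 1) := by
        calc V.valuation (q : Qb) ^ k = V.valuation ((x : E) : Qb) * V.valuation ((y : E) : Qb) := by
              rw [← h1, h2]
          _ ≤ V.valuation (q : Qb) ^ (k + 1) * 1 := mul_le_mul' h3 (hval1 y)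
          _ = _ := mul_one _
      have h5 : V.valuation (q : Qb) ^ (k + 1) < V.valuation (q : Qb) ^ k := by
        rw [pow_succ]
        have h6 : 0 < V.valuation (q : Qb) ^ k := zero_lt_iff.mpr (pow_ne_zero _ hvq)
        calc V.valuation (q : Qb) ^ k * V.valuation (q : Qb) < V.valuation (q : Qb) ^ k * 1 :=
              mul_lt_mul_of_pos_left hV h6
          _ = _ := mul_one _
      exact absurd h4 (not_le.mpr h5)
  -- quotients
  obtain ⟨x, y, hy, hxy⟩ := IsFractionRing.div_surjective (A := 𝓞 E) (⟨c, hc⟩ : E)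
  have hy0 : y ≠ 0 := nonZeroDivisors.ne_zero hy
  have hce : c = ((x : E) : Qb) / ((y : E) : Qb) := by
    have := congrArg (fun z : E => (z : Qb)) hxy
    simp only at this
    push_cast at this
    exact this.symm
  have hx0 : x ≠ 0 := by
    rintro rfl
    apply hc0
    rw [hce]
    simp
  obtain ⟨a, ha⟩ := hint x hx0
  obtain ⟨b, hb⟩ := hint y hy0
  refine ⟨(a : ℤ) - b, ?_⟩
  rw [hce, map_div₀, ha, hb, zpow_sub₀ hvq, zpow_natCast, zpow_natCast]

end Pool.Agent.N889.LD
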