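import Mathlib
import Pool.Agent.N889.LD.Unr

set_option autoImplicit false

/-!
# Expansions in powers of a uniformizer
-/

namespace Pool.Agent.N889.LD

open NumberField Polynomial IntermediateField
open Pool.Agent.H58P (Qb)

lemma zpow_eq_one {Γ : Type*} [LinearOrderedCommGroupWithZero Γ] {a : Γ} (h0 : a ≠ 0) (h1 : a < 1)
    {n : ℤ} (h : a ^ n = 1) : n = 0 := by
  by_contra hne
  have hpos : 0 < a := zero_lt_iff.mpr h0
  have key : ∀ k : ℕ, k ≠ 0 → a ^ k < 1 := fun k hk => pow_lt_one₀ zero_le h1 hk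
  rcases Int.natAbs_eq n with h2 | h2
  · rw [h2, zpow_natCast] at h
    exact (key n.natAbs (by omega)).ne h
  · rw [h2, zpow_neg, zpow_natCast, inv_eq_one] at h
    exact (key n.natAbs (by omega)).ne h

lemma zpow_le_one_iff' {Γ : Type*} [LinearOrderedCommGroupWithZero Γ] {a : Γ} (h0 : a ≠ 0)
    (h1 : a < 1) {n : ℤ} (h : a ^ n ≤ 1) : 0 ≤ n := by
  by_contra hne
  have hpos : 0 < a := zero_lt_iff.mpr h0
  have h2 : a ^ n * a ^ (-n) = 1 := by rw [← zpow_add₀ h0]; simp
  have h3 : a ^ (-n) < 1 := by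
    have h4 : -n = ((-n).toNat : ℤ) := by omega
    rw [h4, zpow_natCast]
    exact pow_lt_one₀ zero_le h1 (by omega)
  have h5 : a ^ n * a ^ (-n) < 1 := mul_lt_one' h h3
  exact h5.ne h2

section
variable (V : ValuationSubring Qb) (q m : ℕ) (hm : 0 < m) (hq0 : 0 < q)
  (hV : V.valuation (q : Qb) < 1) (ϖ : Qb) (hϖ : V.valuation ϖ ^ m = V.valuation (q : Qb))

include hm hq0 hV hϖ

lemma val_terms_le (c : ℕ → Qb)
    (hc : ∀ j, c j = 0 ∨ ∃ n : ℤ, V.valuation (c j) = V.valuation (q : Qb) ^ n) :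
    ∀ j ∈ Finset.range m, V.valuation (c j * ϖ ^ j) ≤
      V.valuation (∑ j ∈ Finset.range m, c j * ϖ ^ j) := by
  classical
  have hvq : V.valuation (q : Qb) ≠ 0 :=
    (Valuation.ne_zero_iff _).mpr (by exact_mod_cast hq0.ne')
  have hne : (Finset.range m).Nonempty := ⟨0, Finset.mem_range.mpr hm⟩
  obtain ⟨i, hi, hmax⟩ := Finset.exists_max_image (Finset.range m)
    (fun j => V.valuation (c j * ϖ ^ j)) hne
  intro j hj
  refine (hmax j hj).trans ?_
  by_cases h0 : V.valuation (c i * ϖ ^ i) = 0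
  · rw [h0]; exact zero_le
  have hpw : ∀ j, c j ≠ 0 → ∃ n : ℤ, V.valuation (c j * ϖ ^ j) ^ m =
      V.valuation (q : Qb) ^ (m * n + j) := by
    intro j hj
    obtain ⟨n, hn⟩ := (hc j).resolve_left hj
    refine ⟨n, ?_⟩
    rw [map_mul, map_pow, mul_pow, ← pow_mul, mul_comm j m, pow_mul, hϖ, hn, zpow_add₀ hvq,
      zpow_natCast, mul_comm (m : ℤ) n, zpow_mul, zpow_natCast]
  have hrest : V.valuation (∑ j ∈ (Finset.range m).erase i, c j * ϖ ^ j) <
      V.valuation (c i * ϖ ^ i) := by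
    apply Valuation.map_sum_lt _ h0
    intro k hk
    obtain ⟨hki, hk⟩ := Finset.mem_erase.mp hk
    refine lt_of_le_of_ne (hmax k hk) fun heq => ?_
    have hci : c i ≠ 0 := by
      rintro h; rw [h] at h0; simp at h0
    have hck : c k ≠ 0 := by
      intro h
      rw [h] at heq
      apply h0
      rw [← heq]
      simp
    obtain ⟨n1, h1⟩ := hpw i hci
    obtain ⟨n2, h2⟩ := hpw k hck
    rw [heq, h1] at h2
    have h3 : V.valuation (q : Qb) ^ ((m * n1 + i) - (m * n2 + k) : ℤ) = 1 := by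
      rw [zpow_sub₀ hvq, h2, div_self (zpow_ne_zero _ hvq)]
    have h4 := zpow_eq_one hvq hV h3
    have h5 : (i : ℤ) - k = m * (n2 - n1) := by linarith
    have hi' := Finset.mem_range.mp hi
    have hk' := Finset.mem_range.mp hk
    have h6 : ((i : ℤ) - k) = 0 := by
      apply Int.eq_zero_of_abs_lt_dvd (m := m) ⟨_, h5⟩
      rw [abs_lt]
      constructor <;> omega
    omega
  rw [← Finset.add_sum_erase _ _ hi]
  rw [Valuation.map_add_eq_of_lt_left _ hrest]

end

lemma mem_adjoin_iff (M : IntermediateField ℚ Qb) (α x : Qb) :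
    x ∈ IntermediateField.adjoin M {α} ↔ x ∈ M ⊔ IntermediateField.adjoin ℚ {α} := by
  rw [← IntermediateField.restrictScalars_adjoin_eq_sup, IntermediateField.mem_restrictScalars]

lemma isInt (M : IntermediateField ℚ Qb) (x : Qb) : IsIntegral M x :=
  (((AlgebraicClosure.isAlgebraic ℚ).isAlgebraic x).isIntegral).tower_top

/-- expansion of the elements of `E(ϖ)` -/
lemma expansion (E : IntermediateField ℚ Qb) (ϖ : Qb) (m : ℕ)
    (hdeg : (minpoly ℚ ϖ).natDegree ≤ m) (y : Qb)
    (hy : y ∈ E ⊔ IntermediateField.adjoin ℚ {ϖ}) :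
    ∃ c : ℕ → Qb, (∀ j, c j ∈ E) ∧ y = ∑ j ∈ Finset.range m, c j * ϖ ^ j := by
  rw [← mem_adjoin_iff] at hy
  have halg : IsAlgebraic E ϖ := (isInt E ϖ).isAlgebraic
  have h1 : y ∈ (IntermediateField.adjoin E {ϖ}).toSubalgebra := hy
  rw [adjoin_simple_toSubalgebra_of_isAlgebraic halg, Algebra.adjoin_singleton_eq_range_aeval] at h1
  obtain ⟨g, hg⟩ := h1
  have hg' : aeval ϖ g = y := hg
  have hintQ : IsIntegral ℚ ϖ := ((AlgebraicClosure.isAlgebraic ℚ).isAlgebraic ϖ).isIntegral
  set P : E[X] := (minpoly ℚ ϖ).map (algebraMap ℚ E) with hP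
  have hmon : P.Monic := (minpoly.monic hintQ).map _
  have hdegP : P.natDegree = (minpoly ℚ ϖ).natDegree := (minpoly.monic hintQ).natDegree_map _
  have hne : P ≠ 1 := by
    intro h
    rw [h, natDegree_one] at hdegP
    exact (minpoly.natDegree_pos hintQ).ne hdegP
  have hroot : aeval ϖ P = 0 := by
    rw [hP, aeval_map_algebraMap, minpoly.aeval]
  have hlt := natDegree_modByMonic_lt g hmon hne
  rw [← aeval_modByMonic_eq_self_of_root hroot,
    aeval_eq_sum_range' (hlt.trans_le (hdegP.trans_le hdeg))] at hg'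
  refine ⟨fun j => ((g %ₘ P).coeff j : E), fun j => ((g %ₘ P).coeff j).2, ?_⟩
  rw [← hg']
  refine Finset.sum_congr rfl fun j _ => ?_
  rw [Algebra.smul_def]
  rfl

/-- congruence of conjugates at the places over `q` -/
theorem local_claim (E : IntermediateField ℚ Qb) [NumberField E] (q : ℕ) (hq : q.Prime)
    (h : ¬ (q : ℤ) ∣ discr E) (V : ValuationSubring Qb) (hV : V.valuation (q : Qb) < 1)
    (m : ℕ) (hm : 0 < m) (ϖ : Qb) (hϖ : V.valuation ϖ ^ m = V.valuation (q : Qb))
    (hdeg : (minpoly ℚ ϖ).natDegree ≤ m) (σ : Qb ≃ₐ[ℚ] Qb) (hσ : ∀ x ∈ E, σ x = x)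
    (hσϖ : V.valuation (σ ϖ) = V.valuation ϖ) (α : Qb)
    (hα : α ∈ E ⊔ IntermediateField.adjoin ℚ {ϖ}) :
    V.valuation (σ α - α) ^ m ≤
      V.valuation (q : Qb) * (max 1 (V.valuation α) * max 1 (V.valuation (σ α))) ^ m := by
  have hvq : V.valuation (q : Qb) ≠ 0 :=
    (Valuation.ne_zero_iff _).mpr (by exact_mod_cast hq.ne_zero)
  -- the case of elements of `V`
  have key : ∀ α ∈ E ⊔ IntermediateField.adjoin ℚ {ϖ}, V.valuation α ≤ 1 →
      V.valuation (σ α - α) ^ m ≤ V.valuation (q : Qb) := by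
    intro α hα hα1
    obtain ⟨c, hc, rfl⟩ := expansion E ϖ m hdeg α hα
    have hcv : ∀ j, c j = 0 ∨ ∃ n : ℤ, V.valuation (c j) = V.valuation (q : Qb) ^ n := by
      intro j
      by_cases h0 : c j = 0
      · exact Or.inl h0
      · exact Or.inr (val_unram E q hq h V hV (c j) (hc j) h0)
    have hterms := val_terms_le V q m hm hq.pos hV ϖ hϖ c hcv
    have hϖ1 : V.valuation ϖ < 1 := by
      by_contra hcon
      rw [not_lt] at hcon
      have := one_le_pow₀ hcon (n := m)
      rw [hϖ] at this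
      exact absurd hV (not_lt.mpr this)
    have hc1 : ∀ j ∈ Finset.range m, V.valuation (c j) ≤ 1 := by
      intro j hj
      rcases hcv j with h0 | ⟨n, hn⟩
      · rw [h0, map_zero]; exact zero_le
      · have h1 : V.valuation (c j * ϖ ^ j) ^ m = V.valuation (q : Qb) ^ (m * n + j) := by
          rw [map_mul, map_pow, mul_pow, ← pow_mul, mul_comm j m, pow_mul, hϖ, hn, zpow_add₀ hvq,
            zpow_natCast, mul_comm (m : ℤ) n, zpow_mul, zpow_natCast]
        have h2 : V.valuation (q : Qb) ^ (m * n + j) ≤ 1 := by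
          rw [← h1]
          exact pow_le_one₀ zero_le ((hterms j hj).trans hα1)
        have h3 := zpow_le_one_iff' hvq hV h2
        have h4 : 0 ≤ n := by
          by_contra hcon
          have hj' := Finset.mem_range.mp hj
          have h5 : n ≤ -1 := by omega
          have h6 : (m : ℤ) * n ≤ m * (-1) := mul_le_mul_of_nonneg_left h5 (by omega)
          have h7 : (j : ℤ) < m := by exact_mod_cast hj'
          linarith
        rw [hn]
        obtain ⟨k, rfl⟩ := Int.eq_ofNat_of_zero_le h4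
        rw [zpow_natCast]
        exact pow_le_one₀ zero_le hV.le
    have h2 : V.valuation (σ (∑ j ∈ Finset.range m, c j * ϖ ^ j) -
        ∑ j ∈ Finset.range m, c j * ϖ ^ j) ≤ V.valuation ϖ := by
      rw [map_sum, ← Finset.sum_sub_distrib]
      apply Valuation.map_sum_le
      intro j hj
      rw [map_mul, hσ _ (hc j), map_pow, ← mul_sub, map_mul]
      have h3 : V.valuation (σ ϖ ^ j - ϖ ^ j) ≤ V.valuation ϖ := by
        rcases Nat.eq_zero_or_pos j with h0 | h0
        · rw [h0]; simp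
        · refine (Valuation.map_sub _ _ _).trans ?_
          rw [map_pow, map_pow, hσϖ, max_self]
          exact pow_le_of_le_one zero_le hϖ1.le h0.ne'
      calc V.valuation (c j) * V.valuation (σ ϖ ^ j - ϖ ^ j) ≤ 1 * V.valuation ϖ :=
            mul_le_mul' (hc1 j hj) h3
        _ = _ := one_mul _
    calc _ ≤ V.valuation ϖ ^ m := pow_le_pow_left₀ zero_le h2 m
      _ = _ := hϖ
  by_cases hα1 : V.valuation α ≤ 1
  · refine (key α hα hα1).trans ?_
    have h1 : (1 : V.ValueGroup) ≤ (max 1 (V.valuation α) * max 1 (V.valuation (σ α))) ^ m :=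
      one_le_pow₀ (one_le_mul (le_max_left _ _) (le_max_left _ _))
    calc V.valuation (q : Qb) = V.valuation (q : Qb) * 1 := (mul_one _).symm
      _ ≤ _ := mul_le_mul' le_rfl h1
  · rw [not_le] at hα1
    have hα0 : α ≠ 0 := by
      rintro rfl
      rw [map_zero] at hα1
      exact absurd hα1 (not_lt.mpr zero_le)
    have hσα0 : σ α ≠ 0 := (map_ne_zero σ).mpr hα0
    have hinv : V.valuation (α⁻¹) ≤ 1 := by
      rw [map_inv₀]
      exact inv_le_one_of_one_le₀ hα1.le
    have h1 := key α⁻¹ (inv_mem hα) hinv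
    have h2 : σ α - α = -((σ α⁻¹ - α⁻¹) * (α * σ α)) := by
      rw [map_inv₀]
      field_simp
      ring
    rw [h2, Valuation.map_neg, map_mul, mul_pow, map_mul]
    refine mul_le_mul' h1 (pow_le_pow_left₀ zero_le ?_ m)
    exact mul_le_mul' (le_max_right _ _) (le_max_right _ _)

end Pool.Agent.N889.LD
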