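import Mathlib
import Pool.Agent.N889.LD.Exp
import Pool.Agent.N889.LD.Eta

set_option autoImplicit false

/-!
# Uniformizers of the subfields of a cyclotomic field of prime conductor
-/

namespace Pool.Agent.N889.LD

open NumberField Polynomial IntermediateField
open Pool.Agent.H58P (Qb)

lemma normal_qb : Normal ℚ Qb := by
  have : IsAlgClosure ℚ Qb := ⟨inferInstance, AlgebraicClosure.isAlgebraic ℚ⟩
  exact IsAlgClosure.normal ℚ Qb

lemma isIntQ (x : Qb) : IsIntegral ℚ x :=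
  ((AlgebraicClosure.isAlgebraic ℚ).isAlgebraic x).isIntegral

/-- an element outside of a field is moved by some automorphism over the field -/
lemma exists_move (M : IntermediateField ℚ Qb) (x : Qb) (hx : x ∉ M) :
    ∃ σ : Qb ≃ₐ[ℚ] Qb, (∀ y ∈ M, σ y = y) ∧ σ x ≠ x := by
  have hcl : IsAlgClosure M Qb := ⟨inferInstance, ⟨fun z => (isInt M z).isAlgebraic⟩⟩
  have hn : Normal M Qb := IsAlgClosure.normal M Qb
  have hg : IsGalois M Qb := { to_isSeparable := inferInstance, to_normal := hn }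
  by_contra hcon
  push Not at hcon
  apply hx
  have h1 : x ∈ (⊥ : IntermediateField M Qb) := by
    rw [InfiniteGalois.mem_bot_iff_fixed]
    intro f
    apply hcon (f.restrictScalars ℚ)
    intro y hy
    exact f.commutes ⟨y, hy⟩
  obtain ⟨y, hy⟩ := IntermediateField.mem_bot.mp h1
  rw [← hy]
  exact y.2

section
variable (q : ℕ) [hq : Fact q.Prime] (ζ : Qb) (hζ : IsPrimitiveRoot ζ q)

include hζ

lemma exists_aut (k : (ZMod q)ˣ) : ∃ σ : Qb ≃ₐ[ℚ] Qb, σ ζ = pw q ζ (k : ZMod q) := by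
  have hn := normal_qb
  have hk : IsPrimitiveRoot (pw q ζ (k : ZMod q)) q := by
    apply hζ.pow_of_coprime
    rw [← ZMod.isUnit_iff_coprime, ZMod.natCast_zmod_val]
    exact k.isUnit
  have h1 := cyclotomic_eq_minpoly_rat hζ hq.out.pos
  have h2 := cyclotomic_eq_minpoly_rat hk hq.out.pos
  have h3 : aeval (pw q ζ (k : ZMod q)) (minpoly ℚ ζ) = 0 := by
    rw [← h1, h2, minpoly.aeval]
  obtain ⟨σ, hσ⟩ := minpoly.exists_algEquiv_of_root' (isIntQ ζ).isAlgebraic h3
  exact ⟨σ, hσ⟩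

lemma exists_unit (σ : Qb ≃ₐ[ℚ] Qb) : ∃ k : (ZMod q)ˣ, σ ζ = pw q ζ (k : ZMod q) := by
  have h1 : IsPrimitiveRoot (σ ζ) q := hζ.map_of_injective (f := σ) σ.injective
  obtain ⟨i, _, hi⟩ := hζ.eq_pow_of_pow_eq_one h1.pow_eq_one
  have hco : i.Coprime q := (hζ.pow_iff_coprime hq.out.pos i).mp (hi ▸ h1)
  refine ⟨ZMod.unitOfCoprime i hco, ?_⟩
  rw [ZMod.coe_unitOfCoprime, pw_natCast hζ.pow_eq_one, hi]

lemma aut_pw (σ : Qb ≃ₐ[ℚ] Qb) (j : ZMod q) (hσ : σ ζ = pw q ζ j) (c : ZMod q) :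
    σ (pw q ζ c) = pw q ζ (j * c) := by
  unfold pw at *
  rw [map_pow, hσ]
  have := pw_pow (q := q) hζ.pow_eq_one j c.val
  unfold pw at this
  rw [this, ZMod.natCast_zmod_val, mul_comm]

lemma sum_eq_zero : ∑ i ∈ Finset.range q, ζ ^ i = 0 :=
  hζ.geom_sum_eq_zero hq.out.one_lt

/-- all the numbers `1 - ξ` have the same value -/
lemma val_one_sub (V : ValuationSubring Qb) (c : ZMod q) (hc : c ≠ 0) :
    V.valuation (1 - pw q ζ c) = V.valuation (1 - ζ) := by
  have key : ∀ (ξ : Qb) (n : ℕ), ξ ^ q = 1 → V.valuation (1 - ξ ^ n) ≤ V.valuation (1 - ξ) := by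
    intro ξ n hξ
    have hξ1 : V.valuation ξ ≤ 1 := by
      have h1 : V.valuation ξ ^ q = 1 := by rw [← map_pow, hξ, map_one]
      exact ((pow_eq_one_iff.mp h1).resolve_right hq.out.ne_zero).le
    have h1 : 1 - ξ ^ n = (1 - ξ) * ∑ i ∈ Finset.range n, ξ ^ i := (mul_neg_geom_sum ξ n).symm
    rw [h1, map_mul]
    calc _ ≤ V.valuation (1 - ξ) * 1 := by
          refine mul_le_mul' le_rfl (Valuation.map_sum_le _ fun i _ => ?_)
          rw [map_pow]
          exact pow_le_one₀ zero_le hξ1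
      _ = _ := mul_one _
  apply le_antisymm
  · exact key ζ c.val hζ.pow_eq_one
  · have h1 := key (pw q ζ c) (c⁻¹).val (by rw [pw_pow hζ.pow_eq_one]; simp [pw_zero])
    rw [pw_pow hζ.pow_eq_one, ZMod.natCast_zmod_val, inv_mul_cancel₀ hc] at h1
    have h2 : pw q ζ (1 : ZMod q) = ζ := by
      have := pw_natCast (q := q) hζ.pow_eq_one 1
      rwa [Nat.cast_one, pow_one] at this
    rwa [h2] at h1

lemma val_one_sub_pow (V : ValuationSubring Qb) :
    V.valuation (1 - ζ) ^ (q - 1) = V.valuation (q : Qb) := by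
  obtain ⟨n, hn⟩ : ∃ n, q = n + 1 := ⟨q - 1, by have := hq.out.pos; omega⟩
  have h1 : ∏ k ∈ Finset.range n, (1 - ζ ^ (k + 1)) = (n : Qb) + 1 :=
    IsPrimitiveRoot.prod_one_sub_pow_eq_order (by rw [← hn]; exact hζ)
  have h2 : (q : Qb) = n + 1 := by rw [hn]; push_cast; rfl
  rw [h2, ← h1, map_prod]
  have h3 : ∀ k ∈ Finset.range n, V.valuation (1 - ζ ^ (k + 1)) = V.valuation (1 - ζ) := by
    intro k hk
    rw [← pw_natCast (q := q) hζ.pow_eq_one]
    apply val_one_sub q ζ hζ V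
    rw [Ne, ZMod.natCast_eq_zero_iff]
    intro hdvd
    have := Nat.le_of_dvd (by omega) hdvd
    have := Finset.mem_range.mp hk
    omega
  rw [Finset.prod_congr rfl h3, Finset.prod_const, Finset.card_range]
  congr 1
  omega

omit hζ in
/-- the norms of `1 - ζ` -/
noncomputable def unif (H : Subgroup (ZMod q)ˣ) (k : (ZMod q)ˣ) : Qb := by
  classical
  exact ∏ a ∈ Finset.univ.filter (fun a : (ZMod q)ˣ => a ∈ H),
    (1 - pw q ζ ((k * a : (ZMod q)ˣ) : ZMod q))

lemma aut_unif (H : Subgroup (ZMod q)ˣ) (σ : Qb ≃ₐ[ℚ] Qb) (j : (ZMod q)ˣ)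
    (hσ : σ ζ = pw q ζ (j : ZMod q)) (k : (ZMod q)ˣ) :
    σ (unif q ζ H k) = unif q ζ H (j * k) := by
  classical
  unfold unif
  rw [map_prod]
  refine Finset.prod_congr rfl fun a _ => ?_
  rw [map_sub, map_one, aut_pw q ζ hζ σ _ hσ]
  congr 2
  push_cast
  ring

lemma aut_eta (H : Subgroup (ZMod q)ˣ) (σ : Qb ≃ₐ[ℚ] Qb) (j : (ZMod q)ˣ)
    (hσ : σ ζ = pw q ζ (j : ZMod q)) (k : (ZMod q)ˣ) :
    σ (eta q ζ H k) = eta q ζ H (j * k) := by
  classical
  unfold eta
  rw [map_sum]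
  refine Finset.sum_congr rfl fun a _ => ?_
  rw [aut_pw q ζ hζ σ _ hσ]
  congr 1
  push_cast
  ring

omit hζ in
lemma unif_coset (H : Subgroup (ZMod q)ˣ) (k h : (ZMod q)ˣ) (hh : h ∈ H) :
    unif q ζ H (k * h) = unif q ζ H k := by
  classical
  unfold unif
  apply Finset.prod_bij (fun (a : (ZMod q)ˣ) _ => h * a)
  · intro a ha
    simp only [Finset.mem_filter, Finset.mem_univ, true_and] at ha ⊢
    exact H.mul_mem hh ha
  · intro a _ b _ hab
    exact mul_left_cancel hab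
  · intro b hb
    simp only [Finset.mem_filter, Finset.mem_univ, true_and] at hb
    refine ⟨h⁻¹ * b, ?_, by rw [mul_inv_cancel_left]⟩
    simp only [Finset.mem_filter, Finset.mem_univ, true_and]
    exact H.mul_mem (H.inv_mem hh) hb
  · intro a _
    rw [mul_assoc]

omit hζ in
lemma eta_coset (H : Subgroup (ZMod q)ˣ) (k h : (ZMod q)ˣ) (hh : h ∈ H) :
    eta q ζ H (h * k) = eta q ζ H k := by
  classical
  unfold eta
  apply Finset.sum_bij (fun (a : (ZMod q)ˣ) _ => h * a)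
  · intro a ha
    simp only [Finset.mem_filter, Finset.mem_univ, true_and] at ha ⊢
    exact H.mul_mem hh ha
  · intro a _ b _ hab
    exact mul_left_cancel hab
  · intro b hb
    simp only [Finset.mem_filter, Finset.mem_univ, true_and] at hb
    refine ⟨h⁻¹ * b, ?_, by rw [mul_inv_cancel_left]⟩
    simp only [Finset.mem_filter, Finset.mem_univ, true_and]
    exact H.mul_mem (H.inv_mem hh) hb
  · intro a _
    congr 2
    rw [mul_comm h k, mul_assoc]

lemma val_unif (V : ValuationSubring Qb) (H : Subgroup (ZMod q)ˣ) (m : ℕ)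
    (hm : Nat.card H * m = q - 1) (k : (ZMod q)ˣ) :
    V.valuation (unif q ζ H k) ^ m = V.valuation (q : Qb) := by
  classical
  unfold unif
  rw [map_prod]
  have h3 : ∀ a ∈ Finset.univ.filter (fun a : (ZMod q)ˣ => a ∈ H),
      V.valuation (1 - pw q ζ ((k * a : (ZMod q)ˣ) : ZMod q)) = V.valuation (1 - ζ) := by
    intro a _
    exact val_one_sub q ζ hζ V _ (Units.ne_zero _)
  rw [Finset.prod_congr rfl h3, Finset.prod_const, ← pow_mul, ← val_one_sub_pow q ζ hζ V, ← hm]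
  congr 2
  rw [Nat.card_eq_fintype_card, Fintype.card_subtype]

lemma val_unif_eq (V : ValuationSubring Qb) (H : Subgroup (ZMod q)ˣ) (k k' : (ZMod q)ˣ) :
    V.valuation (unif q ζ H k) = V.valuation (unif q ζ H k') := by
  classical
  unfold unif
  rw [map_prod, map_prod]
  refine Finset.prod_congr rfl fun a _ => ?_
  rw [val_one_sub q ζ hζ V _ (Units.ne_zero _), val_one_sub q ζ hζ V _ (Units.ne_zero _)]

omit hζ in
open Classical in
lemma card_image_le (H : Subgroup (ZMod q)ˣ) (m : ℕ) (hm : Nat.card H * m = q - 1) :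
    (Finset.univ.image (unif q ζ H)).card ≤ m ∧
      ((∃ j : (ZMod q)ˣ, j ∉ H ∧ unif q ζ H j = unif q ζ H 1) →
        (Finset.univ.image (unif q ζ H)).card < m) := by
  have hcardH : 0 < Nat.card H := Nat.card_pos
  have hquot : Nat.card ((ZMod q)ˣ ⧸ H) = m := by
    have h1 : Nat.card (ZMod q)ˣ = q - 1 := by
      rw [Nat.card_eq_fintype_card, ZMod.card_units]
    have h2 := Subgroup.card_eq_card_quotient_mul_card_subgroup H
    rw [h1, ← hm] at h2
    have h3 : Nat.card H * m = Nat.card H * Nat.card ((ZMod q)ˣ ⧸ H) := by rw [h2]; ring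
    exact (Nat.eq_of_mul_eq_mul_left hcardH h3).symm
  let φ : (ZMod q)ˣ ⧸ H → Qb := fun c => Quotient.liftOn' c (unif q ζ H) (by
    intro a b hab
    rw [QuotientGroup.leftRel_apply] at hab
    have : b = a * (a⁻¹ * b) := by rw [mul_inv_cancel_left]
    rw [this]
    exact (unif_coset q ζ H a _ hab).symm)
  have hφ : ∀ k : (ZMod q)ˣ, φ (QuotientGroup.mk k) = unif q ζ H k := fun k => rfl
  have himg : Finset.univ.image (unif q ζ H) = Finset.univ.image φ := by
    ext y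
    simp only [Finset.mem_image, Finset.mem_univ, true_and]
    constructor
    · rintro ⟨k, rfl⟩
      exact ⟨QuotientGroup.mk k, hφ k⟩
    · rintro ⟨c, rfl⟩
      obtain ⟨k, rfl⟩ := QuotientGroup.mk_surjective c
      exact ⟨k, (hφ k).symm⟩
  rw [himg]
  have hcard : Fintype.card ((ZMod q)ˣ ⧸ H) = m := by rw [← hquot, Nat.card_eq_fintype_card]
  have hle : (Finset.univ.image φ).card ≤ m := by
    refine Finset.card_image_le.trans ?_
    rw [Finset.card_univ, hcard]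
  refine ⟨hle, ?_⟩
  rintro ⟨j, hj, hj1⟩
  refine lt_of_le_of_ne hle fun heq => hj ?_
  rw [← hcard, ← Finset.card_univ, Finset.card_image_iff] at heq
  have h1 := heq (Finset.mem_coe.mpr (Finset.mem_univ (QuotientGroup.mk j : (ZMod q)ˣ ⧸ H)))
    (Finset.mem_coe.mpr (Finset.mem_univ (QuotientGroup.mk 1 : (ZMod q)ˣ ⧸ H)))
    (by rw [hφ, hφ, hj1])
  have h2 := (QuotientGroup.eq (s := H) (a := j) (b := 1)).mp h1
  rw [mul_one] at h2
  simpa using H.inv_mem h2

open Classical in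
lemma natDegree_le_card (H : Subgroup (ZMod q)ˣ) :
    (minpoly ℚ (unif q ζ H 1)).natDegree ≤ (Finset.univ.image (unif q ζ H)).card := by
  have hn := normal_qb
  have hint := isIntQ (unif q ζ H 1)
  have hsep : (minpoly ℚ (unif q ζ H 1)).Separable := (minpoly.irreducible hint).separable
  have hspl : ((minpoly ℚ (unif q ζ H 1)).map (algebraMap ℚ Qb)).Splits :=
    IsAlgClosed.splits _
  have h1 : Fintype.card ((minpoly ℚ (unif q ζ H 1)).rootSet Qb) =
      (minpoly ℚ (unif q ζ H 1)).natDegree := by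
    exact card_rootSet_eq_natDegree hsep hspl
  rw [← h1, ← Set.toFinset_card]
  apply Finset.card_le_card
  intro y hy
  rw [Set.mem_toFinset, mem_rootSet] at hy
  obtain ⟨σ, hσ⟩ := minpoly.exists_algEquiv_of_root' hint.isAlgebraic hy.2
  obtain ⟨j, hj⟩ := exists_unit q ζ hζ σ
  rw [aut_unif q ζ hζ H σ j hj 1] at hσ
  rw [Finset.mem_image]
  exact ⟨j * 1, Finset.mem_univ _, hσ⟩

omit hζ hq in
lemma exists_over (q : ℕ) (hq : q.Prime) : ∃ V : ValuationSubring Qb, V.valuation (q : Qb) < 1 := by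
  have hq0 : (q : Qb) ≠ 0 := by exact_mod_cast hq.ne_zero
  have h1 : (q : Qb)⁻¹ ∉ (integralClosure ℤ Qb).toSubring := by
    intro h
    have h2 : IsIntegral ℤ ((q : Qb)⁻¹) := h
    have h5 : IsIntegral ℤ ((q : ℚ)⁻¹) := by
      rw [← isIntegral_algebraMap_iff (algebraMap ℚ Qb).injective]
      simpa using h2
    obtain ⟨y, hy⟩ := IsIntegrallyClosed.isIntegral_iff.mp h5
    have h6 : (y : ℚ) * q = 1 := by
      have : (y : ℚ) = (q : ℚ)⁻¹ := hy
      rw [this, inv_mul_cancel₀ (by exact_mod_cast hq.ne_zero)]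
    have h7 : y * q = 1 := by exact_mod_cast h6
    have h8 : (q : ℤ) ∣ 1 := ⟨y, by rw [mul_comm, h7]⟩
    exact (Nat.prime_iff_prime_int.mp hq).not_dvd_one h8
  obtain ⟨V, -, hV⟩ := Subring.exists_le_valuationSubring_of_isIntegrallyClosedIn h1
  refine ⟨V, ?_⟩
  rw [← ValuationSubring.valuation_le_one_iff, not_le, map_inv₀] at hV
  exact (one_lt_inv₀ (zero_lt_iff.mpr ((Valuation.ne_zero_iff _).mpr hq0))).mp hV

omit hζ hq in
lemma val_rat (V : ValuationSubring Qb) (q : ℕ) (hq : q.Prime) (hV : V.valuation (q : Qb) < 1)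
    (c : ℚ) (hc : c ≠ 0) : ∃ n : ℤ, V.valuation (c : Qb) = V.valuation (q : Qb) ^ n := by
  have hvq : V.valuation (q : Qb) ≠ 0 :=
    (Valuation.ne_zero_iff _).mpr (by exact_mod_cast hq.ne_zero)
  have hint : ∀ N : ℤ, N ≠ 0 → ∃ k : ℕ, V.valuation (N : Qb) = V.valuation (q : Qb) ^ k := by
    intro N hN0
    have hfin : FiniteMultiplicity (q : ℤ) N := by
      rw [Int.finiteMultiplicity_iff]
      refine ⟨?_, hN0⟩
      simpa using hq.ne_one
    obtain ⟨N', h1, h2⟩ := hfin.exists_eq_pow_mul_and_not_dvd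
    refine ⟨multiplicity (q : ℤ) N, ?_⟩
    have h3 : (N : Qb) = (q : Qb) ^ multiplicity (q : ℤ) N * (N' : Qb) := by
      exact_mod_cast congrArg (fun z : ℤ => (z : Qb)) h1
    rw [h3, map_mul, map_pow, val_int_eq_one V q hq hV N' h2, mul_one]
  obtain ⟨a, ha⟩ := hint c.num (Rat.num_ne_zero.mpr hc)
  obtain ⟨b, hb⟩ := hint c.den (by exact_mod_cast c.den_ne_zero)
  refine ⟨(a : ℤ) - b, ?_⟩
  have h1 : (c : Qb) = (c.num : Qb) / ((c.den : ℤ) : Qb) := by
    conv_lhs => rw [← Rat.num_div_den c]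
    push_cast
    rfl
  rw [h1, map_div₀, ha, hb, zpow_sub₀ hvq, zpow_natCast, zpow_natCast]

omit hζ hq in
lemma le_natDegree (q : ℕ) (hq : q.Prime) (m : ℕ) (hm : 0 < m) (V : ValuationSubring Qb)
    (hV : V.valuation (q : Qb) < 1) (ϖ : Qb)
    (hϖ : V.valuation ϖ ^ m = V.valuation (q : Qb)) : m ≤ (minpoly ℚ ϖ).natDegree := by
  by_contra hcon
  rw [not_le] at hcon
  have hint := isIntQ ϖ
  have h1 := minpoly.aeval ℚ ϖ
  rw [aeval_eq_sum_range' hcon] at h1
  set c : ℕ → Qb := fun j => (((minpoly ℚ ϖ).coeff j : ℚ) : Qb) with hc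
  have h2 : ∑ j ∈ Finset.range m, c j * ϖ ^ j = 0 := by
    rw [← h1]
    refine Finset.sum_congr rfl fun j _ => ?_
    rw [Algebra.smul_def]
    rfl
  have hcv : ∀ j, c j = 0 ∨ ∃ n : ℤ, V.valuation (c j) = V.valuation (q : Qb) ^ n := by
    intro j
    by_cases h0 : (minpoly ℚ ϖ).coeff j = 0
    · left; rw [hc]; simp [h0]
    · exact Or.inr (val_rat V q hq hV _ h0)
  have h3 := val_terms_le V q m hm hq.pos hV ϖ hϖ c hcv (minpoly ℚ ϖ).natDegree
    (Finset.mem_range.mpr hcon)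
  rw [h2, map_zero] at h3
  have h4 : c (minpoly ℚ ϖ).natDegree = 1 := by
    rw [hc]
    simp only
    rw [(minpoly.monic hint).coeff_natDegree, Rat.cast_one]
  rw [h4, one_mul] at h3
  have h5 : V.valuation (ϖ ^ (minpoly ℚ ϖ).natDegree) = 0 := le_antisymm h3 zero_le
  rw [(Valuation.zero_iff _)] at h5
  have h6 : ϖ = 0 := eq_zero_of_pow_eq_zero h5
  rw [h6, map_zero, zero_pow hm.ne'] at hϖ
  exact ((Valuation.ne_zero_iff _).mpr (by exact_mod_cast hq.ne_zero)) hϖ.symm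

lemma mem_of_unif_eq (H : Subgroup (ZMod q)ˣ) (m : ℕ) (hm0 : 0 < m) (hm : Nat.card H * m = q - 1)
    (j : (ZMod q)ˣ) (hj : unif q ζ H j = unif q ζ H 1) : j ∈ H := by
  classical
  by_contra hjH
  obtain ⟨V, hV⟩ := exists_over q hq.out
  have h1 := le_natDegree q hq.out m hm0 V hV (unif q ζ H 1) (val_unif q ζ hζ V H m hm 1)
  have h2 := natDegree_le_card q ζ hζ H
  have h3 := (card_image_le q ζ H m hm).2 ⟨j, hjH, hj⟩
  omega

lemma unif_mem (H : Subgroup (ZMod q)ˣ) (k : (ZMod q)ˣ) :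
    unif q ζ H k ∈ IntermediateField.adjoin ℚ {unif q ζ H 1} := by
  by_contra hcon
  obtain ⟨σ, h1, h2⟩ := exists_move _ _ hcon
  obtain ⟨j, hj⟩ := exists_unit q ζ hζ σ
  obtain ⟨τ, hτ⟩ := exists_aut q ζ hζ k
  have h3 := h1 _ (IntermediateField.mem_adjoin_simple_self ℚ _)
  rw [aut_unif q ζ hζ H σ j hj, mul_one] at h3
  apply h2
  rw [aut_unif q ζ hζ H σ j hj]
  have h4 := congrArg τ h3
  rw [aut_unif q ζ hζ H τ k hτ, aut_unif q ζ hζ H τ k hτ, mul_one] at h4
  rw [mul_comm j k, h4]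

lemma eta_mem (H : Subgroup (ZMod q)ˣ) (m : ℕ) (hm0 : 0 < m) (hm : Nat.card H * m = q - 1)
    (k : (ZMod q)ˣ) : eta q ζ H k ∈ IntermediateField.adjoin ℚ {unif q ζ H 1} := by
  by_contra hcon
  obtain ⟨σ, h1, h2⟩ := exists_move _ _ hcon
  obtain ⟨j, hj⟩ := exists_unit q ζ hζ σ
  have h3 := h1 _ (IntermediateField.mem_adjoin_simple_self ℚ _)
  rw [aut_unif q ζ hζ H σ j hj, mul_one] at h3
  have hjH := mem_of_unif_eq q ζ hζ H m hm0 hm j h3
  apply h2
  rw [aut_eta q ζ hζ H σ j hj, eta_coset q ζ H k j hjH]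

end

end Pool.Agent.N889.LD
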