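import Mathlib
import Pool.Agent.H58B.Low

set_option autoImplicit false

/-!
# A lower bound for the height of a number which is congruent to a conjugate at the places over `q`
-/

namespace Pool.Agent.N889.LD

open NumberField Height Module
open Pool.Agent.Helper259.AbsHt
open Pool.Agent.H58P (Qb ht qb_isIntegral)
open Pool.Agent.H58B (exists_valuationSubring absLogHeight_four)

/-- a lower bound for the height of a vector from local conditions -/
theorem height_ge {ι : Type*} [Finite ι] [Nonempty ι] (B : ℝ) (hB : 0 < B) (x : ι → Qb)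
    (hV : ∀ V : ValuationSubring Qb, ∃ i, 1 ≤ V.valuation (x i))
    (hφ : ∀ φ : Qb →+* ℂ, ∃ i, B ≤ ‖φ (x i)‖) : Real.log B ≤ absLogHeight x := by
  obtain ⟨L, hL, hmem⟩ := exists_nf (Set.range x) (Set.finite_range x)
  obtain ⟨y, rfl⟩ := lift_vec L x fun i => hmem _ ⟨i, rfl⟩
  rw [val_eq, le_div_iff₀ (finrank_pos' L), logHeight_eq_log_mulHeight]
  have hy : y ≠ 0 := by
    rintro rfl
    obtain ⟨V⟩ : Nonempty (ValuationSubring Qb) := inferInstance
    obtain ⟨i, hi⟩ := hV V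
    simp at hi
  have hbdd : ∀ v : L → ℝ, BddAbove (Set.range fun i => v (y i)) := fun v =>
    (Set.finite_range _).bddAbove
  have h1 : B ^ finrank ℚ L ≤ ∏ v : InfinitePlace L, (⨆ i, v (y i)) ^ v.mult := by
    rw [← InfinitePlace.sum_mult_eq (K := L), ← Finset.prod_pow_eq_pow_sum]
    apply Finset.prod_le_prod
    · intro v _
      positivity
    · intro v _
      apply pow_le_pow_left₀ hB.le
      -- extend the embedding
      let _ : Algebra L ℂ := v.embedding.toAlgebra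
      have halg : Algebra.IsAlgebraic L Qb := ⟨fun z =>
        ((qb_isIntegral z).tower_top (A := L)).isAlgebraic⟩
      let ψ : Qb →ₐ[L] ℂ := IsAlgClosed.lift
      obtain ⟨i, hi⟩ := hφ (ψ : Qb →+* ℂ)
      have h2 : v (y i) = ‖(ψ : Qb →+* ℂ) (y i : Qb)‖ := by
        have h3 : (ψ : Qb →+* ℂ) (y i : Qb) = v.embedding (y i) := ψ.commutes (y i)
        rw [h3, InfinitePlace.norm_embedding_eq]
      rw [← h2] at hi
      exact hi.trans (le_ciSup (hbdd v) i)
  have h2 : (1 : ℝ) ≤ ∏ᶠ v : FinitePlace L, ⨆ i, v (y i) := by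
    apply one_le_finprod
    intro v
    obtain ⟨V, hVv⟩ := exists_valuationSubring L v
    obtain ⟨i, hi⟩ := hV V
    have h3 : 1 ≤ v (y i) := by
      by_contra hcon
      exact absurd (hVv (y i) (not_le.mp hcon)) (not_lt.mpr hi)
    exact h3.trans (le_ciSup (hbdd v) i)
  rw [NumberField.mulHeight_eq hy, mul_comm (Real.log B), ← Real.log_pow]
  have h3 : (0 : ℝ) < B ^ finrank ℚ L := by positivity
  apply Real.log_le_log h3
  calc B ^ finrank ℚ L = B ^ finrank ℚ L * 1 := (mul_one _).symm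
    _ ≤ _ := mul_le_mul h1 h2 zero_le_one (h3.le.trans h1)

lemma max_pair {Γ : Type*} [LinearOrderedCommGroupWithZero Γ] (v : Valuation Qb Γ) (α : Qb) :
    ∃ i : Fin 2, max 1 (v α) = v ((![1, α] : Fin 2 → Qb) i) := by
  rcases le_total (v α) 1 with h | h
  · exact ⟨0, by simp [h]⟩
  · exact ⟨1, by simp [h]⟩

lemma max_pair_norm (φ : Qb →+* ℂ) (α : Qb) :
    ∃ i : Fin 2, max 1 ‖φ α‖ = ‖φ ((![1, α] : Fin 2 → Qb) i)‖ := by
  rcases le_total ‖φ α‖ 1 with h | h
  · exact ⟨0, by simp [h]⟩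
  · exact ⟨1, by simp [h]⟩

/-- If `α` and `β` have the same height and are congruent at the places over `q`, then the height
is large. -/
theorem ht_lower (q m : ℕ) (hq : 0 < q) (hm : 0 < m) (α β : Qb) (hαβ : α ≠ β) (hconj : ht β = ht α)
    (hloc : ∀ V : ValuationSubring Qb, V.valuation (q : Qb) < 1 →
      V.valuation (β - α) ^ m ≤
        V.valuation (q : Qb) * (max 1 (V.valuation α) * max 1 (V.valuation β)) ^ m) :
    Real.log q / m - Real.log 2 ≤ 2 * ht α := by
  obtain ⟨ρ, hρ⟩ := IsAlgClosed.exists_pow_nat_eq (q : Qb) hm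
  have hq0 : (q : Qb) ≠ 0 := by exact_mod_cast hq.ne'
  have hρ0 : ρ ≠ 0 := by
    rintro rfl
    rw [zero_pow hm.ne'] at hρ
    exact hq0 hρ.symm
  set δ := β - α with hδ
  have hδ0 : δ ≠ 0 := sub_ne_zero.mpr hαβ.symm
  set w : Fin 2 × Fin 2 → Qb := fun a =>
    (![1, α] : Fin 2 → Qb) a.1 * (![1, β] : Fin 2 → Qb) a.2 with hw
  have hsm : absLogHeight ((ρ / δ) • w) = absLogHeight w :=
    absLogHeight_smul w (div_ne_zero hρ0 hδ0)
  have h4 : absLogHeight w = 2 * ht α := by
    rw [hw, absLogHeight_four, hconj]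
    ring
  have hm' : (0 : ℝ) < m := by exact_mod_cast hm
  have hq' : (0 : ℝ) < q := by exact_mod_cast hq
  have hB : Real.log q / m - Real.log 2 = Real.log ((q : ℝ) ^ ((m : ℝ)⁻¹) / 2) := by
    rw [Real.log_div (by positivity) (by norm_num), Real.log_rpow hq']
    field_simp
  rw [← h4, ← hsm, hB]
  apply height_ge
  · positivity
  · intro V
    obtain ⟨i, hi⟩ := max_pair V.valuation α
    obtain ⟨j, hj⟩ := max_pair V.valuation β
    refine ⟨(i, j), ?_⟩
    have hδv : V.valuation δ ≠ 0 := (Valuation.ne_zero_iff _).mpr hδ0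
    have e : V.valuation (((ρ / δ) • w) (i, j)) = V.valuation ρ / V.valuation δ *
        (max 1 (V.valuation α) * max 1 (V.valuation β)) := by
      rw [Pi.smul_apply, smul_eq_mul, hw, map_mul, map_div₀]
      simp only
      rw [map_mul, hi, hj]
    rw [e]
    set A := max 1 (V.valuation α) * max 1 (V.valuation β) with hA
    have hA1 : V.valuation α ≤ A ∧ V.valuation β ≤ A := by
      constructor
      · calc V.valuation α ≤ max 1 (V.valuation α) := le_max_right _ _
          _ = max 1 (V.valuation α) * 1 := (mul_one _).symm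
          _ ≤ A := mul_le_mul' le_rfl (le_max_left _ _)
      · calc V.valuation β ≤ max 1 (V.valuation β) := le_max_right _ _
          _ = 1 * max 1 (V.valuation β) := (one_mul _).symm
          _ ≤ A := mul_le_mul' (le_max_left _ _) le_rfl
    have hqV : V.valuation (q : Qb) ≤ 1 := by
      rw [ValuationSubring.valuation_le_one_iff]
      exact natCast_mem V q
    have key : V.valuation δ ≤ V.valuation ρ * A := by
      rcases lt_or_eq_of_le hqV with h | h
      · have h1 := hloc V h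
        rw [← hρ, map_pow, ← mul_pow] at h1
        exact le_of_pow_le_pow_left₀ hm.ne' zero_le h1
      · have h2 : V.valuation ρ = 1 := by
          rw [← hρ, map_pow] at h
          exact (pow_eq_one_iff.mp h).resolve_right hm.ne'
        rw [h2, one_mul, hδ]
        exact (Valuation.map_sub _ _ _).trans (max_le hA1.2 hA1.1)
    rw [div_mul_eq_mul_div, one_le_div₀ (zero_lt_iff.mpr hδv)]
    exact key
  · intro φ
    obtain ⟨i, hi⟩ := max_pair_norm φ α
    obtain ⟨j, hj⟩ := max_pair_norm φ β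
    refine ⟨(i, j), ?_⟩
    have hδφ : 0 < ‖φ δ‖ := by
      rw [norm_pos_iff]
      exact (map_ne_zero φ).mpr hδ0
    have e : ‖φ (((ρ / δ) • w) (i, j))‖ = ‖φ ρ‖ / ‖φ δ‖ * (max 1 ‖φ α‖ * max 1 ‖φ β‖) := by
      rw [Pi.smul_apply, smul_eq_mul, hw, map_mul, map_div₀, norm_mul, norm_div]
      simp only
      rw [map_mul, norm_mul, hi, hj]
    rw [e]
    have hρn : ‖φ ρ‖ = (q : ℝ) ^ ((m : ℝ)⁻¹) := by
      have h1 : ‖φ ρ‖ ^ m = q := by
        rw [← norm_pow, ← map_pow, hρ, map_natCast, Complex.norm_natCast]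
      rw [← h1, ← Real.rpow_natCast, ← Real.rpow_mul (norm_nonneg _), mul_inv_cancel₀ hm'.ne',
        Real.rpow_one]
    rw [hρn]
    have h2 : ‖φ δ‖ ≤ 2 * (max 1 ‖φ α‖ * max 1 ‖φ β‖) := by
      rw [hδ, map_sub]
      have h3 : (1 : ℝ) ≤ max 1 ‖φ α‖ := le_max_left _ _
      have h4 : (1 : ℝ) ≤ max 1 ‖φ β‖ := le_max_left _ _
      have h5 : ‖φ α‖ ≤ max 1 ‖φ α‖ := le_max_right _ _
      have h6 : ‖φ β‖ ≤ max 1 ‖φ β‖ := le_max_right _ _
      calc ‖φ β - φ α‖ ≤ ‖φ β‖ + ‖φ α‖ := norm_sub_le _ _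
        _ ≤ max 1 ‖φ β‖ + max 1 ‖φ α‖ := by linarith
        _ ≤ _ := by nlinarith
    have hpos : (0 : ℝ) < (q : ℝ) ^ ((m : ℝ)⁻¹) := by positivity
    rw [div_le_iff₀ (by norm_num : (0 : ℝ) < 2), div_mul_eq_mul_div, div_mul_eq_mul_div,
      le_div_iff₀ hδφ]
    calc (q : ℝ) ^ ((m : ℝ)⁻¹) * ‖φ δ‖ ≤ (q : ℝ) ^ ((m : ℝ)⁻¹) *
          (2 * (max 1 ‖φ α‖ * max 1 ‖φ β‖)) := mul_le_mul_of_nonneg_left h2 hpos.le
      _ = _ := by ring

end Pool.Agent.N889.LD
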