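import Mathlib

set_option autoImplicit false

/-!
# Primes `q` for which the order of `p` is a large power of two
-/

namespace Pool.Agent.N889.LD

lemma modEq_one (M : ℕ) : ∀ N : ℕ, N ≠ 0 → (∀ q : ℕ, q.Prime → q ∣ N → q ≡ 1 [MOD M]) →
    N ≡ 1 [MOD M] := by
  intro N
  induction N using induction_on_primes with
  | zero => intro h; exact absurd rfl h
  | one => intro _ _; exact Nat.ModEq.refl 1
  | prime_mul p a hp ih =>
    intro h0 h
    have ha : a ≠ 0 := by rintro rfl; simp at h0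
    have h1 := ih ha fun q hq hqa => h q hq (hqa.mul_left p)
    have h2 := h p hp (dvd_mul_right p a)
    simpa using h2.mul h1

lemma odd_pow (p : ℕ) (hp : Odd p) (j : ℕ) : p ^ 2 ^ (j + 1) % 8 = 1 := by
  have h1 : p ^ 2 % 8 = 1 := by
    obtain ⟨a, rfl⟩ := hp
    have : (2 * a + 1) ^ 2 = 4 * (a * (a + 1)) + 1 := by ring
    rw [this]
    obtain ⟨b, hb⟩ := Nat.even_mul_succ_self a
    omega
  rw [pow_succ', pow_mul, Nat.pow_mod, h1]
  norm_num

lemma lte (p : ℕ) (hp : Odd p) (hp1 : 1 < p) : ∃ t : ℕ, ∀ i : ℕ,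
    ¬ 2 ^ (t + i + 1) ∣ p ^ 2 ^ (i + 1) - 1 := by
  have h0 : p ^ 2 - 1 ≠ 0 := by
    have : 1 < p ^ 2 := Nat.one_lt_pow two_ne_zero hp1
    omega
  refine ⟨p ^ 2 - 1, fun i => ?_⟩
  induction i with
  | zero =>
    intro h
    simp only [zero_add, pow_one, add_zero] at h
    have h1 := Nat.le_of_dvd (Nat.pos_of_ne_zero h0) h
    have h2 : p ^ 2 - 1 + 1 < 2 ^ (p ^ 2 - 1 + 1) := Nat.lt_two_pow_self
    omega
  | succ i ih =>
    intro h
    apply ih
    set A := p ^ 2 ^ (i + 1) with hA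
    have hA1 : 1 ≤ A := Nat.one_le_pow _ _ (by omega)
    have h1 : p ^ 2 ^ (i + 1 + 1) = A ^ 2 := by
      rw [hA, ← pow_mul, ← pow_succ]
    have h2 : A ^ 2 - 1 = (A - 1) * (A + 1) := by
      have := Nat.sq_sub_sq A 1
      rw [one_pow] at this
      rw [this, mul_comm]
    have h8 : A % 8 = 1 := odd_pow p hp i
    obtain ⟨b, hb⟩ : ∃ b, A + 1 = 2 * (2 * b + 1) := ⟨(A + 1) / 4, by omega⟩
    rw [h1, h2, hb, show p ^ 2 - 1 + (i + 1) + 1 = (p ^ 2 - 1 + i + 1) + 1 by omega, pow_succ] at h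
    have h3 : 2 ^ (p ^ 2 - 1 + i + 1) * 2 ∣ ((A - 1) * (2 * b + 1)) * 2 := by
      convert h using 1
      ring
    have h4 := Nat.dvd_of_mul_dvd_mul_right (by norm_num) h3
    refine Nat.Coprime.dvd_of_dvd_mul_right ?_ h4
    apply Nat.Coprime.pow_left
    rw [Nat.coprime_two_left]
    exact ⟨b, rfl⟩

/-- primes `q` with large order of `p` -/
theorem exists_prime (p : ℕ) (hp : p.Prime) (hp2 : p ≠ 2) : ∃ t : ℕ, ∀ e B : ℕ, ∃ q : ℕ,
    q.Prime ∧ B < q ∧ 2 ^ e ∣ q - 1 ∧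
      ∀ r : ℕ, (p : ZMod q) ^ (r * ((q - 1) / 2 ^ e)) = 1 → 2 ^ (e - t) ∣ r := by
  have hodd : Odd p := hp.odd_of_ne_two hp2
  obtain ⟨t, ht⟩ := lte p hodd hp.one_lt
  refine ⟨t, fun e B => ?_⟩
  set i := e + B with hi
  set A := p ^ 2 ^ (i + 1) with hA
  have h8 : A % 8 = 1 := odd_pow p hodd i
  have hA1 : 1 < A := Nat.one_lt_pow (pow_ne_zero _ two_ne_zero) hp.one_lt
  set N := (A + 1) / 2 with hN
  have hN2 : 2 * N = A + 1 := by omega
  have hNodd : N % 2 = 1 := by omega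
  have hN0 : N ≠ 0 := by omega
  obtain ⟨q, hq, hqN, hqT⟩ : ∃ q : ℕ, q.Prime ∧ q ∣ N ∧ ¬ 2 ^ (t + i) ∣ q - 1 := by
    by_contra hcon
    push Not at hcon
    apply ht i
    have h1 : N ≡ 1 [MOD 2 ^ (t + i)] := by
      apply modEq_one _ _ hN0
      intro q hq hqN
      exact ((Nat.modEq_iff_dvd' hq.one_le).mpr (hcon q hq hqN)).symm
    have h2 : 2 ^ (t + i) ∣ N - 1 := (Nat.modEq_iff_dvd' (by omega)).mp h1.symm
    have h3 : p ^ 2 ^ (i + 1) - 1 = 2 * (N - 1) := by omega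
    rw [h3, pow_succ']
    exact Nat.mul_dvd_mul_left 2 h2
  have hq2 : q ≠ 2 := by
    rintro rfl
    omega
  haveI : Fact q.Prime := ⟨hq⟩
  haveI : Fact (2 < q) := ⟨lt_of_le_of_ne hq.two_le (Ne.symm hq2)⟩
  have hA' : (p : ZMod q) ^ 2 ^ (i + 1) = -1 := by
    have h1 : ((A + 1 : ℕ) : ZMod q) = 0 := by
      rw [ZMod.natCast_eq_zero_iff, ← hN2]
      exact hqN.mul_left 2
    rw [hA] at h1
    push_cast at h1
    exact eq_neg_of_add_eq_zero_left h1
  have hord : orderOf (p : ZMod q) = 2 ^ (i + 1 + 1) := by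
    apply orderOf_eq_prime_pow
    · rw [hA']
      exact ZMod.neg_one_ne_one
    · rw [pow_succ, pow_mul, hA']
      norm_num
  have hp0 : (p : ZMod q) ≠ 0 := by
    intro h
    rw [h, zero_pow (pow_ne_zero _ two_ne_zero)] at hA'
    exact (neg_ne_zero.mpr one_ne_zero) hA'.symm
  have hdvd : 2 ^ (i + 1 + 1) ∣ q - 1 := by
    rw [← hord]
    exact orderOf_dvd_of_pow_eq_one (ZMod.pow_card_sub_one_eq_one hp0)
  have hq1 : 0 < q - 1 := by have := hq.one_lt; omega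
  refine ⟨q, hq, ?_, ?_, ?_⟩
  · have h1 := Nat.le_of_dvd hq1 hdvd
    have h2 : i + 1 + 1 < 2 ^ (i + 1 + 1) := Nat.lt_two_pow_self
    omega
  · exact (pow_dvd_pow 2 (by omega)).trans hdvd
  · intro r hr
    have h1 := orderOf_dvd_of_pow_eq_one hr
    rw [hord] at h1
    have h2 : 2 ^ e ∣ q - 1 := (pow_dvd_pow 2 (by omega)).trans hdvd
    have h3 : 2 ^ (i + 1 + 1 + e) ∣ r * (q - 1) := by
      have h4 := Nat.mul_dvd_mul_right h1 (2 ^ e)
      rw [← pow_add, mul_assoc, Nat.div_mul_cancel h2] at h4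
      exact h4
    obtain ⟨a, b, hb, hab⟩ := Nat.exists_eq_two_pow_mul_odd hq1.ne'
    have ha : a < t + i := by
      by_contra hcon
      apply hqT
      rw [hab]
      exact (pow_dvd_pow 2 (by omega)).mul_right b
    by_cases hle : a ≤ i + 1 + 1 + e
    · obtain ⟨s, hs⟩ := Nat.exists_eq_add_of_le hle
      rw [hs, hab, pow_add] at h3
      have h5 : 2 ^ a * 2 ^ s ∣ 2 ^ a * (r * b) := by
        convert h3 using 1
        ring
      have h6 := Nat.dvd_of_mul_dvd_mul_left (by positivity) h5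
      have h7 : 2 ^ s ∣ r := by
        refine Nat.Coprime.dvd_of_dvd_mul_right ?_ h6
        apply Nat.Coprime.pow_left
        rw [Nat.coprime_two_left]
        exact hb
      exact (pow_dvd_pow 2 (by omega)).trans h7
    · have : e - t = 0 := by omega
      rw [this, pow_zero]
      exact one_dvd r

end Pool.Agent.N889.LD
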