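import Mathlib
import Pool.Agent.N889.LD.Low
import Pool.Agent.N889.LD.Cyc
import Pool.Agent.N889.LD.Num

set_option autoImplicit false

/-!
# One stage of the tower
-/

namespace Pool.Agent.N889.LD

open NumberField Polynomial IntermediateField Module
open Pool.Agent.H58P (Qb ht)
open Pool.Agent.H58B (ht_conj)
open Pool.Agent.H58W (finrank_adjoin_le)

/-- the image of the periods in the residue field -/
lemma map_eta {R S : Type*} [CommRing R] [CommRing S] (f : R →+* S) (q : ℕ) [Fact q.Prime] (z : R)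
    (H : Subgroup (ZMod q)ˣ) (k : (ZMod q)ˣ) : f (eta q z H k) = eta q (f z) H k := by
  classical
  unfold eta pw
  rw [map_sum]
  simp_rw [map_pow]

/-- the local degree is large -/
theorem local_large (p q : ℕ) [hp : Fact p.Prime] [hq : Fact q.Prime] (hpq : p < q) (ζ : Qb)
    (hζ : IsPrimitiveRoot ζ q) (H : Subgroup (ZMod q)ˣ) (M : IntermediateField ℚ Qb)
    (hM : ∀ k, eta q ζ H k ∈ M) (V : ValuationSubring Qb) (hV : V.valuation (p : Qb) < 1) (r : ℕ)
    (hr : ∀ x ∈ M, V.valuation x ≤ 1 → V.valuation (x ^ (p ^ r) - x) < 1) :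
    ∃ P ∈ H, (P : ZMod q) = (p : ZMod q) ^ r := by
  have hζV : ζ ∈ V := by
    rw [← ValuationSubring.valuation_le_one_iff]
    have h1 : V.valuation ζ ^ q = 1 := by rw [← map_pow, hζ.pow_eq_one, map_one]
    exact ((pow_eq_one_iff.mp h1).resolve_right hq.out.ne_zero).le
  let κ := IsLocalRing.ResidueField V
  let z' : V := ⟨ζ, hζV⟩
  let z : κ := IsLocalRing.residue V z'
  have hnonunit : ∀ y : V, V.valuation (y : Qb) < 1 → IsLocalRing.residue V y = 0 := by
    intro y hy
    rw [IsLocalRing.residue_eq_zero_iff, ValuationSubring.valuation_lt_one_iff]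
    exact hy
  have hnonunit' : ∀ y : V, IsLocalRing.residue V y = 0 → V.valuation (y : Qb) < 1 := by
    intro y hy
    rwa [IsLocalRing.residue_eq_zero_iff, ValuationSubring.valuation_lt_one_iff] at hy
  have hpκ : ((p : ℕ) : κ) = 0 := by
    have h1 := hnonunit (p : V) (by push_cast; exact hV)
    rwa [map_natCast] at h1
  have hchar : CharP κ p := by
    have h1 : ringChar κ ∣ p := (ringChar.spec κ p).mp hpκ
    have h2 : ringChar κ ≠ 1 := CharP.ringChar_ne_one
    have h3 : ringChar κ = p := (Nat.dvd_prime hp.out).mp h1 |>.resolve_left h2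
    rw [← h3]
    exact ringChar.charP κ
  have hz : z ^ q = 1 := by
    have h1 : z' ^ q = 1 := by
      apply Subtype.ext
      push_cast
      exact hζ.pow_eq_one
    rw [← map_pow, h1, map_one]
  have hsum : ∑ i ∈ Finset.range q, z ^ i = 0 := by
    have h1 : ∑ i ∈ Finset.range q, z' ^ i = 0 := by
      apply Subtype.ext
      push_cast
      exact sum_eq_zero q ζ hζ
    have h2 := congrArg (IsLocalRing.residue V) h1
    rw [map_sum, map_zero] at h2
    simp_rw [map_pow] at h2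
    exact h2
  have hq0 : (q : κ) ≠ 0 := by
    rw [Ne, CharP.cast_eq_zero_iff κ p]
    intro h
    have := (Nat.prime_dvd_prime_iff_eq hp.out hq.out).mp h
    omega
  have hco : IsUnit ((p : ZMod q) ^ r) := by
    apply IsUnit.pow
    rw [ZMod.isUnit_iff_coprime]
    exact (Nat.coprime_primes hp.out hq.out).mpr hpq.ne
  refine ⟨hco.unit, ?_, hco.unit_spec⟩
  apply mem_of_fixed p q z hz hsum hq0 H r hco.unit hco.unit_spec
  intro k
  have h1 : eta q z H k = IsLocalRing.residue V (eta q z' H k) := (map_eta _ q z' H k).symm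
  have h2 : V.subtype (eta q z' H k) = eta q ζ H k := map_eta V.subtype q z' H k
  have h3 : ((eta q z' H k : V) : Qb) = eta q ζ H k := h2
  rw [h1, ← map_pow, ← sub_eq_zero, ← map_sub]
  apply hnonunit
  push_cast
  rw [h3]
  apply hr _ (hM k)
  rw [← h3]
  exact (ValuationSubring.valuation_le_one_iff V _).mpr (eta q z' H k).2

/-- the property of the primes used below -/
def PP (p t : ℕ) : Prop := ∀ e B : ℕ, ∃ q : ℕ,
    q.Prime ∧ B < q ∧ 2 ^ e ∣ q - 1 ∧
      ∀ r : ℕ, (p : ZMod q) ^ (r * ((q - 1) / 2 ^ e)) = 1 → 2 ^ (e - t) ∣ r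

/-- one stage -/
theorem stage (E : IntermediateField ℚ Qb) [hE : FiniteDimensional ℚ E] (i p t : ℕ) (hp : p.Prime)
    (hPP : PP p t) : ∃ ϖ : Qb,
      (∀ σ : Qb ≃ₐ[ℚ] Qb, σ ϖ ∈ IntermediateField.adjoin ℚ {ϖ}) ∧
      (∀ α ∈ E ⊔ IntermediateField.adjoin ℚ {ϖ}, α ∉ E →
        (i : ℝ) * (minpoly ℚ α).natDegree + i < ht α) ∧
      (∀ (V : ValuationSubring Qb), V.valuation (p : Qb) < 1 → ∀ r : ℕ,
        (∀ x ∈ IntermediateField.adjoin ℚ {ϖ}, V.valuation x ≤ 1 →
          V.valuation (x ^ (p ^ r) - x) < 1) → 2 ^ (i - t) ∣ r) := by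
  have hNF : NumberField E :=
    { to_charZero := inferInstance
      to_finiteDimensional := inferInstance }
  have hp' : Fact p.Prime := ⟨hp⟩
  set D : ℕ := finrank ℚ E * 2 ^ i with hD
  set C : ℝ := Real.exp (2 ^ i * (2 * (i * D + i) + Real.log 2)) with hC
  obtain ⟨q, hq, hqB, hqe, hqr⟩ := hPP i (max (discr E).natAbs (max p ⌈C⌉₊))
  have hq' : Fact q.Prime := ⟨hq⟩
  have hqd : ¬ (q : ℤ) ∣ discr E := by
    intro hdvd
    have h1 : q ∣ (discr E).natAbs := by
      rwa [← Int.natCast_dvd]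
    have h2 : (discr E).natAbs ≠ 0 := Int.natAbs_ne_zero.mpr (discr_ne_zero E)
    have h3 := Nat.le_of_dvd (Nat.pos_of_ne_zero h2) h1
    have h4 := le_max_left (discr E).natAbs (max p ⌈C⌉₊)
    omega
  have hpq : p < q := by
    have h4 := le_max_right (discr E).natAbs (max p ⌈C⌉₊)
    have h5 := le_max_left p ⌈C⌉₊
    omega
  have hCq : C < q := by
    have h4 := le_max_right (discr E).natAbs (max p ⌈C⌉₊)
    have h5 := le_max_right p ⌈C⌉₊
    have h6 : ⌈C⌉₊ < q := by omega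
    calc C ≤ ⌈C⌉₊ := Nat.le_ceil C
      _ < q := by exact_mod_cast h6
  obtain ⟨ζ, hζ⟩ : ∃ ζ : Qb, IsPrimitiveRoot ζ q := by
    have : NeZero (q : Qb) := ⟨by exact_mod_cast hq.ne_zero⟩
    exact HasEnoughRootsOfUnity.exists_primitiveRoot Qb q
  have hcyc : IsCyclic (ZMod q)ˣ := inferInstance
  let H : Subgroup (ZMod q)ˣ := (powMonoidHom ((q - 1) / 2 ^ i) : (ZMod q)ˣ →* (ZMod q)ˣ).ker
  have hcardU : Nat.card (ZMod q)ˣ = q - 1 := by
    rw [Nat.card_eq_fintype_card, ZMod.card_units]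
  have hcardH : Nat.card H * 2 ^ i = q - 1 := by
    have h1 : Nat.card H = (Nat.card (ZMod q)ˣ).gcd ((q - 1) / 2 ^ i) :=
      IsCyclic.card_powMonoidHom_ker (ZMod q)ˣ _
    rw [h1, hcardU, Nat.gcd_eq_right (Nat.div_dvd_of_dvd hqe), Nat.div_mul_cancel hqe]
  set ϖ := unif q ζ H 1 with hϖ
  have hm : 0 < 2 ^ i := by positivity
  have hdeg : (minpoly ℚ ϖ).natDegree ≤ 2 ^ i := by
    classical
    exact (natDegree_le_card q ζ hζ H).trans (card_image_le q ζ H _ hcardH).1
  refine ⟨ϖ, ?_, ?_, ?_⟩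
  · intro σ
    obtain ⟨j, hj⟩ := exists_unit q ζ hζ σ
    rw [hϖ, aut_unif q ζ hζ H σ j hj]
    exact unif_mem q ζ hζ H _
  · intro α hα hαE
    obtain ⟨σ, hσ, hσα⟩ := exists_move E α hαE
    obtain ⟨j, hj⟩ := exists_unit q ζ hζ σ
    have h1 := ht_lower q (2 ^ i) hq.pos hm α (σ α) hσα.symm (ht_conj σ α) (by
      intro V hV
      apply local_claim E q hq hqd V hV (2 ^ i) hm ϖ (val_unif q ζ hζ V H _ hcardH 1) hdeg σ hσ _ α hα
      rw [hϖ, aut_unif q ζ hζ H σ j hj]
      exact val_unif_eq q ζ hζ V H _ _)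
    have hdα : (minpoly ℚ α).natDegree ≤ D := by
      refine (finrank_adjoin_le E ϖ α hα).trans ?_
      exact Nat.mul_le_mul_left _ hdeg
    have h2 : 2 ^ i * (2 * (i * D + i) + Real.log 2) < Real.log q := by
      rw [Real.lt_log_iff_exp_lt (by exact_mod_cast hq.pos)]
      exact hCq
    have h3 : 2 * ((i : ℝ) * D + i) + Real.log 2 < Real.log q / ((2 ^ i : ℕ) : ℝ) := by
      rw [lt_div_iff₀ (by positivity)]
      push_cast
      linarith
    have h4 : ((i : ℝ) * (minpoly ℚ α).natDegree + i) ≤ (i : ℝ) * D + i := by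
      have : ((minpoly ℚ α).natDegree : ℝ) ≤ D := by exact_mod_cast hdα
      have := mul_le_mul_of_nonneg_left this (Nat.cast_nonneg (α := ℝ) i)
      linarith
    linarith
  · intro V hV r hr
    obtain ⟨P, hPH, hP⟩ := local_large p q hpq ζ hζ H (IntermediateField.adjoin ℚ {ϖ})
      (fun k => eta_mem q ζ hζ H _ hm hcardH k) V hV r hr
    apply hqr
    have h1 : P ^ ((q - 1) / 2 ^ i) = 1 := hPH
    have h2 := congrArg (fun u : (ZMod q)ˣ => (u : ZMod q)) h1
    simp only [Units.val_pow_eq_pow_val, Units.val_one] at h2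
    rw [hP, ← pow_mul] at h2
    exact h2

end Pool.Agent.N889.LD
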