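import Mathlib
import Pool.Agent.N889.LD.Stage

set_option autoImplicit false

/-!
# The field
-/

namespace Pool.Agent.N889.LD

open NumberField Polynomial IntermediateField Module
open Pool.Agent.H58P (Qb ht)
open Pool.Agent.H58W (northcott)

/-- the prime treated at the `i`-th stage -/
noncomputable def PR (i : ℕ) : ℕ := by
  classical
  exact if (Nat.unpair i).1.Prime ∧ (Nat.unpair i).1 ≠ 2 then (Nat.unpair i).1 else 3

lemma PR_prime (i : ℕ) : (PR i).Prime ∧ PR i ≠ 2 := by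
  unfold PR
  split_ifs with h
  · exact h
  · exact ⟨Nat.prime_three, by norm_num⟩

lemma PR_inf (p : ℕ) (hp : p.Prime) (hp2 : p ≠ 2) (N : ℕ) : ∃ i, N ≤ i ∧ PR i = p := by
  refine ⟨Nat.pair p N, Nat.right_le_pair p N, ?_⟩
  unfold PR
  rw [Nat.unpair_pair, if_pos ⟨hp, hp2⟩]

/-- the field -/
theorem exists_field : ∃ F : IntermediateField ℚ Qb,
    (∀ σ : Qb ≃ₐ[ℚ] Qb, ∀ x ∈ F, σ x ∈ F) ∧
    (∀ m : ℕ, {α : Qb | α ∈ F ∧ ht α ≤ m * (minpoly ℚ α).natDegree + m}.Finite) ∧
    (∀ p : ℕ, p.Prime → p ≠ 2 → ∀ V : ValuationSubring Qb, V.valuation (p : Qb) < 1 → ∀ r : ℕ,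
      (∀ x ∈ F, V.valuation x ≤ 1 → V.valuation (x ^ (p ^ r) - x) < 1) → r = 0) := by
  have hT : ∀ p : ℕ, ∃ t, p.Prime → p ≠ 2 → PP p t := by
    intro p
    by_cases h : p.Prime ∧ p ≠ 2
    · obtain ⟨t, ht⟩ := exists_prime p h.1 h.2
      exact ⟨t, fun _ _ => ht⟩
    · exact ⟨0, fun h1 h2 => absurd ⟨h1, h2⟩ h⟩
  choose t ht' using hT
  let St : Type := {K : IntermediateField ℚ Qb // FiniteDimensional ℚ K}
  have hd : ∀ (i : ℕ) (K : St), ∃ ϖ : Qb,
      (∀ σ : Qb ≃ₐ[ℚ] Qb, σ ϖ ∈ IntermediateField.adjoin ℚ {ϖ}) ∧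
      (∀ α ∈ K.1 ⊔ IntermediateField.adjoin ℚ {ϖ}, α ∉ K.1 →
        (i : ℝ) * (minpoly ℚ α).natDegree + i < ht α) ∧
      (∀ (V : ValuationSubring Qb), V.valuation (PR i : Qb) < 1 → ∀ r : ℕ,
        (∀ x ∈ IntermediateField.adjoin ℚ {ϖ}, V.valuation x ≤ 1 →
          V.valuation (x ^ (PR i ^ r) - x) < 1) → 2 ^ (i - t (PR i)) ∣ r) := by
    rintro i ⟨K, hK⟩
    exact stage K i (PR i) (t (PR i)) (PR_prime i).1 (ht' _ (PR_prime i).1 (PR_prime i).2)
  choose d hd1 hd2 hd3 using hd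
  let f : ℕ → St := fun i => Nat.rec (⟨⊥, inferInstance⟩ : St)
    (fun i K => ⟨K.1 ⊔ IntermediateField.adjoin ℚ {d i K}, by
      have := K.2
      have : FiniteDimensional ℚ (IntermediateField.adjoin ℚ {d i K}) :=
        IntermediateField.adjoin.finiteDimensional (isIntQ _)
      infer_instance⟩) i
  have hsucc : ∀ i, (f (i + 1)).1 = (f i).1 ⊔ IntermediateField.adjoin ℚ {d i (f i)} :=
    fun i => rfl
  have hmono : Monotone fun i => (f i).1 := monotone_nat_of_le_succ fun i => by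
    show (f i).1 ≤ (f (i + 1)).1
    rw [hsucc]
    exact le_sup_left
  set F : IntermediateField ℚ Qb := ⨆ i, (f i).1 with hF
  have hmem : ∀ x, x ∈ F ↔ ∃ i, x ∈ (f i).1 := by
    intro x
    rw [hF, ← SetLike.mem_coe, IntermediateField.coe_iSup_of_directed hmono.directed_le,
      Set.mem_iUnion]
    rfl
  have hdF : ∀ i, IntermediateField.adjoin ℚ {d i (f i)} ≤ F := fun i => by
    refine le_trans ?_ (le_iSup (fun i => (f i).1) (i + 1))
    show _ ≤ (f (i + 1)).1
    rw [hsucc]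
    exact le_sup_right
  refine ⟨F, ?_, ?_, ?_⟩
  · intro σ x hx
    -- all the fields of the tower are stable
    have hstab : ∀ i, (f i).1.map (σ : Qb →ₐ[ℚ] Qb) ≤ (f i).1 := by
      intro i
      induction i with
      | zero =>
        show (⊥ : IntermediateField ℚ Qb).map (σ : Qb →ₐ[ℚ] Qb) ≤ ⊥
        rw [IntermediateField.map_bot]
      | succ i ih =>
        rw [hsucc, IntermediateField.map_sup]
        refine sup_le_sup ih ?_
        rw [IntermediateField.adjoin_map, Set.image_singleton, IntermediateField.adjoin_le_iff,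
          Set.singleton_subset_iff]
        exact hd1 i (f i) σ
    obtain ⟨i, hi⟩ := (hmem x).mp hx
    exact (hmem _).mpr ⟨i, hstab i ⟨x, hi, rfl⟩⟩
  · intro m
    have hfd := (f m).2
    refine (northcott (finrank ℚ (f m).1) (m * (finrank ℚ (f m).1) + m)).subset ?_
    rintro α ⟨hα, hht⟩
    -- `α` lies in the `m`-th field
    have hαm : α ∈ (f m).1 := by
      by_contra hcon
      obtain ⟨i, hi⟩ := (hmem α).mp hα
      classical
      have hex : ∃ i, α ∈ (f i).1 := ⟨i, hi⟩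
      have h0 := Nat.find_spec hex
      have h1 : m < Nat.find hex := by
        by_contra h
        exact hcon (hmono (not_lt.mp h) h0)
      obtain ⟨k, hk⟩ : ∃ k, Nat.find hex = k + 1 := ⟨Nat.find hex - 1, by omega⟩
      have h2 : α ∉ (f k).1 := Nat.find_min hex (by omega)
      rw [hk, hsucc] at h0
      have h3 := hd2 k (f k) α h0 h2
      have h4 : (m : ℝ) ≤ k := by exact_mod_cast (by omega : m ≤ k)
      have h5 : (0 : ℝ) ≤ ((minpoly ℚ α).natDegree : ℝ) := Nat.cast_nonneg _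
      nlinarith
    have hdeg : (minpoly ℚ α).natDegree ≤ finrank ℚ (f m).1 := by
      have h2 : minpoly ℚ α = minpoly ℚ (⟨α, hαm⟩ : (f m).1) := by
        rw [← minpoly.algebraMap_eq (algebraMap (f m).1 Qb).injective]
        rfl
      rw [h2]
      exact minpoly.natDegree_le _
    refine ⟨hdeg, hht.trans ?_⟩
    have h6 : ((minpoly ℚ α).natDegree : ℝ) ≤ finrank ℚ (f m).1 := by exact_mod_cast hdeg
    have h7 := mul_le_mul_of_nonneg_left h6 (Nat.cast_nonneg (α := ℝ) m)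
    linarith
  · intro p hp hp2 V hV r hr
    by_contra hr0
    obtain ⟨i, hi, hpi⟩ := PR_inf p hp hp2 (t p + r)
    have h1 := hd3 i (f i) V (by rw [hpi]; exact hV) r (by
      intro x hx hx1
      rw [hpi]
      exact hr x (hdF i hx) hx1)
    rw [hpi] at h1
    have h2 := Nat.le_of_dvd (Nat.pos_of_ne_zero hr0) h1
    have h3 : r < 2 ^ r := Nat.lt_two_pow_self
    have h4 : 2 ^ r ≤ 2 ^ (i - t p) := Nat.pow_le_pow_right (by norm_num) (by omega)
    omega

end Pool.Agent.N889.LD
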