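import Mathlib

set_option autoImplicit false

/-!
# The residue field of a finite extension
-/

namespace Pool.Agent.N889.LD

open Polynomial IsLocalRing Module

/-- In a field extension of bounded degree the Frobenius has bounded order on residues. -/
theorem frob_residue {k Ω : Type*} [Field k] [Field Ω] [Algebra k Ω] (A : ValuationSubring k)
    [Finite (ResidueField A)] (Λ : IntermediateField k Ω) [FiniteDimensional k Λ]
    (W : ValuationSubring Ω) (hW : ∀ x : A, algebraMap k Ω (x : k) ∈ W)
    (hloc : IsLocalHom ((((algebraMap k Ω).comp A.subtype).codRestrict W.toSubring hW)))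
    (x : Ω) (hx : x ∈ Λ) (hxW : x ∈ W) :
    W.valuation (x ^ (Nat.card (ResidueField A) ^ (finrank k Λ).factorial) - x) < 1 := by
  classical
  set g : A →+* W := ((algebraMap k Ω).comp A.subtype).codRestrict W.toSubring hW with hg
  have hloc' : IsLocalHom g := hloc
  let φ : ResidueField A →+* ResidueField W := ResidueField.map g
  letI : Algebra (ResidueField A) (ResidueField W) := φ.toAlgebra
  have hint : IsIntegral k x := by
    have h1 : IsIntegral k (⟨x, hx⟩ : Λ) := IsIntegral.of_finite k _
    exact h1.map (IsScalarTower.toAlgHom k Λ Ω)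
  set P := minpoly k x with hP
  have hPdeg : P.natDegree ≤ finrank k Λ := by
    have h2 : P = minpoly k (⟨x, hx⟩ : Λ) := by
      rw [hP, ← minpoly.algebraMap_eq (algebraMap Λ Ω).injective]
      rfl
    rw [h2]
    exact minpoly.natDegree_le _
  have hP0 : P ≠ 0 := minpoly.ne_zero hint
  -- the coefficient with the largest value
  obtain ⟨j, hj, hmax⟩ := Finset.exists_max_image P.support (fun i => A.valuation (P.coeff i))
    (by rwa [Finset.nonempty_iff_ne_empty, Ne, Polynomial.support_eq_empty])
  have hcj : P.coeff j ≠ 0 := Polynomial.mem_support_iff.mp hj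
  have hcjv : A.valuation (P.coeff j) ≠ 0 := (Valuation.ne_zero_iff _).mpr hcj
  have hmem : ∀ i, P.coeff i / P.coeff j ∈ A := by
    intro i
    rw [← ValuationSubring.valuation_le_one_iff, map_div₀]
    rw [div_le_one₀ (zero_lt_iff.mpr hcjv)]
    by_cases hi : P.coeff i = 0
    · rw [hi, map_zero]; exact zero_le
    · exact hmax i (Polynomial.mem_support_iff.mpr hi)
  let a : ℕ → A := fun i => ⟨P.coeff i / P.coeff j, hmem i⟩
  let G : (ResidueField A)[X] := ∑ i ∈ Finset.range (P.natDegree + 1), monomial i (residue A (a i))
  have hjle : j < P.natDegree + 1 := Nat.lt_succ_of_le (Polynomial.le_natDegree_of_ne_zero hcj)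
  have hGcoeff : G.coeff j = 1 := by
    simp only [G, Polynomial.finsetSum_coeff, Polynomial.coeff_monomial]
    rw [Finset.sum_ite_eq' , if_pos (Finset.mem_range.mpr hjle)]
    have : a j = 1 := by
      apply Subtype.ext
      exact div_self hcj
    rw [this, map_one]
  have hG0 : G ≠ 0 := by
    intro h
    rw [h, Polynomial.coeff_zero] at hGcoeff
    exact zero_ne_one hGcoeff
  have hGdeg : G.natDegree ≤ P.natDegree := by
    apply Polynomial.natDegree_sum_le_of_forall_le
    intro i hi
    exact (Polynomial.natDegree_monomial_le _).trans (by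
      have := Finset.mem_range.mp hi
      omega)
  let xW : W := ⟨x, hxW⟩
  let xb : ResidueField W := residue W xW
  have hroot : aeval xb G = 0 := by
    simp only [G, map_sum, aeval_monomial]
    have h1 : ∀ i, algebraMap (ResidueField A) (ResidueField W) (residue A (a i)) * xb ^ i =
        residue W (g (a i) * xW ^ i) := by
      intro i
      rw [map_mul, map_pow]
      congr 1
    simp_rw [h1]
    rw [← map_sum]
    have h2 : ∑ i ∈ Finset.range (P.natDegree + 1), g (a i) * xW ^ i = 0 := by
      apply Subtype.ext
      have h3 : ((∑ i ∈ Finset.range (P.natDegree + 1), g (a i) * xW ^ i : W) : Ω) =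
          ∑ i ∈ Finset.range (P.natDegree + 1), algebraMap k Ω (P.coeff i / P.coeff j) * x ^ i := by
        rw [AddSubmonoidClass.coe_finsetSum]
        rfl
      rw [h3]
      have h4 : ∀ i, algebraMap k Ω (P.coeff i / P.coeff j) * x ^ i =
          algebraMap k Ω (P.coeff j)⁻¹ * (P.coeff i • x ^ i) := by
        intro i
        rw [Algebra.smul_def, div_eq_mul_inv, map_mul]
        ring
      simp_rw [h4]
      rw [← Finset.mul_sum, ← aeval_eq_sum_range, hP, minpoly.aeval, mul_zero]
      rfl
    rw [h2, map_zero]
  have hbint : IsIntegral (ResidueField A) xb := by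
    rw [← isAlgebraic_iff_isIntegral]
    exact ⟨G, hG0, hroot⟩
  -- the residue generates a finite field
  let N := IntermediateField.adjoin (ResidueField A) {xb}
  have hNfd : FiniteDimensional (ResidueField A) N := IntermediateField.adjoin.finiteDimensional hbint
  have hNfin : Finite N := Module.finite_of_finite (ResidueField A)
  have hNdeg : finrank (ResidueField A) N ≤ finrank k Λ := by
    rw [IntermediateField.adjoin.finrank hbint]
    refine le_trans ?_ (hGdeg.trans hPdeg)
    exact Polynomial.natDegree_le_of_dvd (minpoly.dvd _ _ hroot) hG0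
  have hNpos : 0 < finrank (ResidueField A) N := finrank_pos
  have hcard : Nat.card N = Nat.card (ResidueField A) ^ finrank (ResidueField A) N :=
    Module.natCard_eq_pow_finrank
  let y : N := ⟨xb, IntermediateField.mem_adjoin_simple_self _ xb⟩
  have hy : y ^ Nat.card N = y := by
    have := Fintype.ofFinite N
    rw [Nat.card_eq_fintype_card]
    exact FiniteField.pow_card y
  have hyk : ∀ n : ℕ, y ^ (Nat.card N) ^ n = y := by
    intro n
    induction n with
    | zero => rw [pow_zero, pow_one]
    | succ n ih => rw [pow_succ, pow_mul, ih, hy]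
  obtain ⟨c, hc⟩ : finrank (ResidueField A) N ∣ (finrank k Λ).factorial :=
    Nat.dvd_factorial hNpos hNdeg
  have hyD : y ^ (Nat.card (ResidueField A) ^ (finrank k Λ).factorial) = y := by
    rw [hc, pow_mul, ← hcard]
    exact hyk c
  have hxb : xb ^ (Nat.card (ResidueField A) ^ (finrank k Λ).factorial) = xb := by
    have := congrArg (fun z : N => (z : ResidueField W)) hyD
    exact this
  have h5 : residue W (xW ^ (Nat.card (ResidueField A) ^ (finrank k Λ).factorial) - xW) = 0 := by
    rw [map_sub, map_pow, sub_eq_zero]
    exact hxb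
  rw [residue_eq_zero_iff, ValuationSubring.valuation_lt_one_iff] at h5
  exact h5

end Pool.Agent.N889.LD
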