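import Mathlib
import Pool.Agent.N889.LD.Res
import Pool.Agent.N889.LD.Field
import Pool.Agent.W189.NF.Residue

set_option autoImplicit false

/-!
# Infinite local degrees
-/

namespace Pool.Agent.N889.LD

open IsLocalRing Module NumberField IsDedekindDomain
open Pool.Agent.H58P (Qb)

lemma val_comap_lt {K L : Type*} [Field K] [Field L] (f : K →+* L) (W : ValuationSubring L) (y : K)
    (h : W.valuation (f y) < 1) : (W.comap f).valuation y < 1 := by
  by_contra hcon
  rw [not_lt] at hcon
  have hy : y ≠ 0 := by
    rintro rfl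
    rw [map_zero] at hcon
    exact absurd hcon (not_le.mpr zero_lt_one)
  have h1 : (W.comap f).valuation y⁻¹ ≤ 1 := by
    rw [map_inv₀]
    exact inv_le_one_of_one_le₀ hcon
  rw [ValuationSubring.valuation_le_one_iff, ValuationSubring.mem_comap,
    ← ValuationSubring.valuation_le_one_iff, map_inv₀, map_inv₀] at h1
  have h2 : W.valuation (f y) ≠ 0 := (Valuation.ne_zero_iff _).mpr ((map_ne_zero f).mpr hy)
  have h3 : 1 ≤ W.valuation (f y) := by
    rwa [inv_le_one₀ (zero_lt_iff.mpr h2)] at h1
  exact absurd h (not_lt.mpr h3)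

/-- the places of finite local degree lie over two -/
theorem two_mem (F : IntermediateField ℚ Qb)
    (hF : ∀ p : ℕ, p.Prime → p ≠ 2 → ∀ V : ValuationSubring Qb, V.valuation (p : Qb) < 1 → ∀ r : ℕ,
      (∀ x ∈ F, V.valuation x ≤ 1 → V.valuation (x ^ (p ^ r) - x) < 1) → r = 0)
    (K : IntermediateField ℚ Qb) [NumberField K] (v : HeightOneSpectrum (𝓞 K))
    (ι : Qb →ₐ[K] AlgebraicClosure (v.adicCompletion K))
    (hι : FiniteDimensional (v.adicCompletion K)
      (IntermediateField.adjoin (v.adicCompletion K) (ι '' (F : Set Qb)))) :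
    (2 : 𝓞 K) ∈ v.asIdeal := by
  set A := v.adicCompletionIntegers K with hA
  have hcard : Nat.card (ResidueField A) = Ideal.absNorm v.asIdeal :=
    Pool.Agent.W189.NF.card_residue v
  have hfin : Finite (ResidueField A) := by
    refine Nat.finite_of_card_ne_zero ?_
    rw [hcard, Ne, Ideal.absNorm_eq_zero_iff]
    exact v.ne_bot
  have hFt := Fintype.ofFinite (ResidueField A)
  obtain ⟨p, hpchar⟩ := CharP.exists (ResidueField A)
  obtain ⟨f, hp, hf⟩ := FiniteField.card (ResidueField A) p
  have hpmem : (p : 𝓞 K) ∈ v.asIdeal := by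
    rw [← Pool.Agent.W189.NF.redMap_eq_zero v, map_natCast]
    exact CharP.cast_eq_zero (ResidueField A) p
  by_cases hp2 : p = 2
  · rw [hp2] at hpmem
    exact_mod_cast hpmem
  exfalso
  obtain ⟨W, hW, hloc⟩ := IsLocalRing.exists_factor_valuationRing
    ((algebraMap (v.adicCompletion K) (AlgebraicClosure (v.adicCompletion K))).comp A.subtype)
  have hV : (W.comap (ι : Qb →+* AlgebraicClosure (v.adicCompletion K))).valuation (p : Qb) < 1 := by
    apply val_comap_lt
    rw [map_natCast]
    have h1 : (p : W) = (((algebraMap (v.adicCompletion K)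
        (AlgebraicClosure (v.adicCompletion K))).comp A.subtype).codRestrict W.toSubring hW)
          (p : A) := (map_natCast _ p).symm
    have h2 : ¬ IsUnit (p : W) := by
      intro hu
      rw [h1] at hu
      have h3 := hloc.map_nonunit _ hu
      have h4 : residue A (p : A) = 0 := by
        rw [map_natCast]
        exact CharP.cast_eq_zero (ResidueField A) p
      rw [residue_eq_zero_iff, mem_maximalIdeal, mem_nonunits_iff] at h4
      exact h4 h3
    have h3 : (p : W) ∈ maximalIdeal W := by
      rwa [mem_maximalIdeal, mem_nonunits_iff]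
    rw [ValuationSubring.valuation_lt_one_iff] at h3
    push_cast at h3
    exact h3
  have h0 := hF p hp hp2 _ hV (f * (finrank (v.adicCompletion K)
    (IntermediateField.adjoin (v.adicCompletion K) (ι '' (F : Set Qb)))).factorial) (by
    intro x hx hx1
    apply val_comap_lt
    have h1 := frob_residue A (IntermediateField.adjoin (v.adicCompletion K) (ι '' (F : Set Qb)))
      W hW hloc (ι x) (IntermediateField.subset_adjoin _ _ ⟨x, hx, rfl⟩)
      (by
        rw [ValuationSubring.valuation_le_one_iff, ValuationSubring.mem_comap] at hx1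
        exact hx1)
    rw [Nat.card_eq_fintype_card, hf, ← pow_mul] at h1
    rw [map_sub, map_pow]
    exact h1)
  have h1 : (0 : ℕ) < f := f.2
  have h2 := Nat.factorial_pos (finrank (v.adicCompletion K)
    (IntermediateField.adjoin (v.adicCompletion K) (ι '' (F : Set Qb))))
  have h3 := Nat.mul_pos h1 h2
  omega

end Pool.Agent.N889.LD
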